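import Pool.Agent.Y518.CC.FStm
import Pool.Agent.W910.BG.T_ULT
import Pool.Agent.W910.SY.T_DC
import Pool.Agent.W910.SY.T_ZF
import Pool.Agent.W910.SY.T_TRU
import Pool.Agent.W910.SY.T_SEP
import Pool.Agent.W654.SY.CLO

/-!
# The model
-/

set_option autoImplicit false
set_option linter.unusedSectionVars false

namespace Pool.Agent.Y518.CC.Core

open Pool.Agent.W868 Pool.Agent.W868.PName Pool.Agent.W910 Pool.Agent.W910.SY MeasureTheory
open Pool.Agent.W910.BG (code mem_code code_injective)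
open ZFSet (pair)

theorem isFunc_code (y : ℕ → ℕ) : ZFSet.IsFunc ZFSet.omega ZFSet.omega (code y) := by
  constructor
  · intro z hz
    obtain ⟨n, rfl⟩ := mem_code.1 hz
    exact ZFSet.pair_mem_prod.2 ⟨mem_omega_iff.2 ⟨n, rfl⟩, mem_omega_iff.2 ⟨y n, rfl⟩⟩
  · intro z hz
    obtain ⟨n, rfl⟩ := mem_omega_iff.1 hz
    refine ⟨nat (y n), mem_code.2 ⟨n, rfl⟩, fun w hw => ?_⟩
    obtain ⟨m, hm⟩ := mem_code.1 hw
    obtain ⟨h1, h2⟩ := ZFSet.pair_inj.1 hm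
    rw [h2, nat_injective h1]

theorem countable_rules {k : ℕ} {Γ : SimpleGraph (ℕ → ℕ)} (D : Dat k Γ) {ι : Type} [Countable ι]
    (φ : ι → {φ : (ℕ → Bool) → ℕ → ℕ // Measurable φ}) :
    (((sys D).rules ∪ ruR D) ∪ ((ruP D ∪ ruC D) ∪ ruK D φ)).Countable := by
  refine ((Set.Finite.countable ?_).union (Set.Finite.countable ?_)).union
    ((Set.Countable.union ?_ ?_).union ?_)
  · unfold Sys.rules
    exact Set.toFinite _
  · unfold ruR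
    exact Set.toFinite _
  · unfold ruP
    exact (Set.toFinite _).countable.union (Set.countable_range _)
  · unfold ruC
    exact (Set.toFinite _).countable.union (Set.countable_range _)
  · unfold ruK
    exact (((Set.toFinite _).countable.union (Set.countable_range _)).union
      (Set.countable_range _)).union (Set.countable_range _)

/-- In the transitive class `M`, the set `c` is a function from the Baire space (that is, from the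
set of the functions from `ω` to `ω` in `M`) to `k = {0, ..., k - 1}`, and adjacent elements of
the Baire space do not have the same value. -/
def IsColB (M : Set ZFSet.{0}) (Γ : SimpleGraph (ℕ → ℕ)) (k : ℕ) (c : ZFSet.{0}) : Prop :=
  (∃ N ∈ M, (∀ y, y ∈ N ↔ y ∈ M ∧ ZFSet.IsFunc ZFSet.omega ZFSet.omega y) ∧
    ZFSet.IsFunc N (nat k) c) ∧
  ∀ y y' : ℕ → ℕ, Γ.Adj y y' → ∀ i, ¬ (pair (code y) i ∈ c ∧ pair (code y') i ∈ c)

/-- The model. -/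
def S_CORE : Prop := ∀ (k : ℕ) (Γ : SimpleGraph (ℕ → ℕ)),
  MeasurableSet {p : (ℕ → ℕ) × (ℕ → ℕ) | Γ.Adj p.1 p.2} → Γ.Colorable (k + 1) →
    ∀ (ι : Type) [Countable ι] (φ : ι → {φ : (ℕ → Bool) → ℕ → ℕ // Measurable φ}) (z : ℕ → ℕ),
      ∃ M : Set ZFSet.{0}, M.Countable ∧ IsZF M ∧ DC M ∧ code z ∈ M ∧
        (∃ c ∈ M, IsColB M Γ (k + 1) c) ∧
        ∀ T ∈ M, ∃ b : ℕ → Bool, (∀ i, code ((φ i).1 b) ∈ M) ∧ ∀ i, code ((φ i).1 b) ∈ T →
          ∃ s : Finset ℕ, s.Nonempty ∧ code ((φ i).1 (flp s b)) ∈ T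

theorem core (hDAT : S_DAT) (hDST : S_DST) (hNAM : S_NAM) (hREAL : S_REAL) (hPT : S_PT)
    (hCOL : S_COL) (hKIL : S_KIL) : S_CORE := by
  intro k Γ hB hc ι _ φ z
  obtain ⟨D⟩ := hDAT k Γ hB hc
  obtain ⟨R, hRd⟩ : ∃ R : Set (Rule (Cn D)), R = ((sys D).rules ∪ ruR D) ∪
    ((ruP D ∪ ruC D) ∪ ruK D φ) := ⟨_, rfl⟩
  obtain ⟨π, hA, -, hcl⟩ := exists_pkg R (hRd ▸ countable_rules D φ)
    {colN D, check (cd (⟨fun _ => z, measurable_const⟩ : NR k))} (Set.toFinite _).countable ⊤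
  have hR : ClR R π := hcl
  have hRS : (sys D).rules ⊆ R := fun _ h => hRd ▸ Or.inl (Or.inl h)
  have hRR : ruR D ⊆ R := fun _ h => hRd ▸ Or.inl (Or.inr h)
  have hRP : ruP D ⊆ R := fun _ h => hRd ▸ Or.inr (Or.inl (Or.inl h))
  have hRC : ruC D ⊆ R := fun _ h => hRd ▸ Or.inr (Or.inl (Or.inr h))
  have hRK : ruK D φ ⊆ R := fun _ h => hRd ▸ Or.inr (Or.inr h)
  have hCld : (sys D).Cld π := fun ρ hρ => hcl ρ (hRS hρ)
  have hM : IsZF ((sys D).Ms π) := SY.T_ZF.main SY.T_TRU.main SY.T_SEP.main _ _ π hCld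
  have hclo := Pool.Agent.W654.SY.main _ (sys D) (hDST k Γ D) π hCld
  have hMW : (sys D).Ms π ⊆ π.W := by
    rintro _ ⟨x, ⟨hx, -⟩, rfl⟩
    exact π.val_mem_W hx
  have hDC : DC ((sys D).Ms π) := SY.T_DC.main _ _ π.isZFC_W hM hMW hclo
  obtain ⟨x, hx⟩ := hPT k Γ D π R hR hRP
  obtain ⟨hN1, hN2, -⟩ := hNAM k Γ D
  have hrl : ∀ f : NR k, Hul π f → code (f.1 x) ∈ (sys D).Ms π := by
    intro f hf
    have h1 : realN D f ∈ π.N := r1_mem hR (F := fun (f : NR k) _ => realN D f)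
      (hRR (by simp [ruR])) hf 0
    exact ⟨realN D f, ⟨h1, hN1 f⟩, hx.2.2 f hf⟩
  have hreal : ∀ s ∈ π.W, ZFSet.IsFunc ZFSet.omega ZFSet.omega s →
      ∃ f : NR k, Hul π f ∧ s = code (f.1 x) := by
    intro s hs hsf
    obtain ⟨f, hf, h1⟩ := hREAL k Γ D π (fun ρ hρ => hcl ρ (hRR hρ)) s hs hsf
    exact ⟨f, hf, h1.trans (hx.2.2 f hf)⟩
  have hcN : colN D ∈ π.N := hA (Or.inl rfl)
  obtain ⟨c1, c2, c3, c4⟩ := hCOL k Γ D π R hR hRR hRP hRC x hx hcN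
  refine ⟨(sys D).Ms π, (π.cnt.mono fun _ h => h.1).image _, hM, hDC, ?_,
    ⟨π.val (colN D), ⟨colN D, ⟨hcN, hN2⟩, rfl⟩, ?_, ?_⟩, ?_⟩
  · exact hrl ⟨fun _ => z, measurable_const⟩ (hA (Or.inr rfl))
  · -- the colouring is a function
    obtain ⟨Pw, hPw, hPw'⟩ := hM.power _ (hM.prod_mem hM.infinity hM.infinity)
    have hom := hM.infinity
    have h1 : Dfn ((sys D).Ms π) ((sys D).Ms π)
        fun w : Fin 1 → ZFSet.{0} => ZFSet.IsFunc ZFSet.omega ZFSet.omega (w 0) :=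
      hM.base.isFunc' (DfnF.const hom) (DfnF.const hom) (DfnF.proj 0)
    have h2 := hM.sep_mem (Q := fun y => ZFSet.IsFunc ZFSet.omega ZFSet.omega y) h1 hPw
    have h3 : ∀ y, y ∈ ZFSet.sep (fun y => ZFSet.IsFunc ZFSet.omega ZFSet.omega y) Pw ↔
        y ∈ (sys D).Ms π ∧ ZFSet.IsFunc ZFSet.omega ZFSet.omega y := by
      intro y
      rw [ZFSet.mem_sep, hPw']
      exact ⟨fun h => ⟨h.1.1, h.2⟩, fun h => ⟨⟨h.1, h.2.1⟩, h.2⟩⟩
    refine ⟨_, h2, h3, fun t ht => ?_, fun y hy => ?_⟩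
    · obtain ⟨f, c, hf, rfl⟩ := c2 t ht
      exact ZFSet.pair_mem_prod.2 ⟨(h3 _).2 ⟨hrl f hf, isFunc_code _⟩,
        BG.T_ULT.nat_mem_nat.2 c.2⟩
    · obtain ⟨h4, h5⟩ := (h3 y).1 hy
      obtain ⟨f, hf, rfl⟩ := hreal y (hMW h4) h5
      obtain ⟨c, hc⟩ := c1 f hf
      refine ⟨nat c, hc, fun w hw => ?_⟩
      obtain ⟨f', c', hf', h6⟩ := c2 _ hw
      obtain ⟨h8, h9⟩ := ZFSet.pair_inj.1 h6
      rw [h9] at hw ⊢
      rw [c3 _ _ _ hw hc]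
  · -- the colouring is proper
    rintro y y' hyy i ⟨h1, h2⟩
    obtain ⟨f, c, hf, h3⟩ := c2 _ h1
    obtain ⟨f', c', hf', h4⟩ := c2 _ h2
    obtain ⟨h5, h6⟩ := ZFSet.pair_inj.1 h3
    obtain ⟨h7, h8⟩ := ZFSet.pair_inj.1 h4
    rw [h6] at h1
    rw [h8] at h2
    exact c4 y y' hyy c c' h1 h2 (Fin.ext (nat_injective (h6.symm.trans h8)))
  · rintro _ ⟨T, ⟨hTN, hTH⟩, rfl⟩
    obtain ⟨β, hβ, h1⟩ := hKIL k Γ D ι φ π R hR hRR hRP hRK x hx T hTN hTH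
    refine ⟨bits β x, fun i => ?_, h1⟩
    have h2 := r1_mem hR (F := fun (β : ℝ) _ =>
      (check (cd (fN (k := k) (φ i) β)) : PName (Cn D)))
      (hRK (Or.inl (Or.inl (Or.inr ⟨i, rfl⟩)))) hβ 0
    exact hrl (fN (φ i) β) h2

end Pool.Agent.Y518.CC.Core
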