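import Mathlib

/-!
# Colourings of Borel graphs without Vitali sets: labels, the group and the measure

`k + 1` is the number of colours. A point of the probability space `Om k` is a family `u` of
elements of the finite alphabet `Al k = Bool × Fin (k + 1)`, indexed by labels. The label
`base j e` is used for a random bit (the first component of the value), the label `col l F` for the
colour (the second component of the value) of the element `F (u ∘ l)` of the Baire space.
-/

set_option autoImplicit false

namespace Pool.Agent.Y518.CC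

open MeasureTheory

/-- The alphabet. -/
abbrev Al (k : ℕ) : Type := Bool × Fin (k + 1)

/-- Borel functions of countably many letters. -/
abbrev Fn (k : ℕ) : Type := {F : (ℕ → Al k) → ℕ → ℕ // Measurable F}

/-- The labels. -/
inductive Lab (k : ℕ) : Type
  | base (j : ℝ × ℕ) (e : Bool) : Lab k
  | col (l : ℕ → Lab k) (F : Fn k) : Lab k

/-- The probability space. -/
abbrev Om (k : ℕ) : Type := Lab k → Al k

/-- The group: finite sets of pairs, with the symmetric difference. -/
@[ext] structure Gp : Type where
  /-- the finite set -/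
  s : Finset (ℝ × ℕ)

/-- The pair `j` is in the set `g`. -/
def Gp.Has (g : Gp) (j : ℝ × ℕ) : Prop := j ∈ g.s

open Classical in
noncomputable instance : CommGroup Gp where
  mul g h := ⟨symmDiff g.s h.s⟩
  one := ⟨∅⟩
  inv g := g
  mul_assoc g h i := Gp.ext (symmDiff_assoc g.s h.s i.s)
  one_mul g := Gp.ext (bot_symmDiff g.s)
  mul_one g := Gp.ext (symmDiff_bot g.s)
  inv_mul_cancel g := Gp.ext (symmDiff_self g.s)
  mul_comm g h := Gp.ext (symmDiff_comm g.s h.s)

theorem Gp.has_one {j : ℝ × ℕ} : ¬ (1 : Gp).Has j := Finset.notMem_empty j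

theorem Gp.has_mul {g h : Gp} {j : ℝ × ℕ} : (g * h).Has j ↔ ¬ (g.Has j ↔ h.Has j) := by
  classical
  have h1 : (g * h).s = symmDiff g.s h.s := rfl
  unfold Gp.Has
  rw [h1, Finset.mem_symmDiff]
  tauto

theorem Gp.inv_eq (g : Gp) : g⁻¹ = g := rfl

theorem Gp.mul_self (g : Gp) : g * g = 1 := by
  rw [← inv_mul_cancel g, Gp.inv_eq]

variable {k : ℕ}

open Classical in
/-- The action of the group on the labels. -/
noncomputable def mv (g : Gp) : Lab k → Lab k
  | .base j e => .base j (e ^^ decide (g.Has j))
  | .col l F => .col (fun n => mv g (l n)) F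

theorem mv_one (a : Lab k) : mv 1 a = a := by
  induction a with
  | base j e => simp [mv, Gp.has_one]
  | col l F ih => simp [mv, ih]

theorem mv_mul (g h : Gp) (a : Lab k) : mv (g * h) a = mv g (mv h a) := by
  classical
  induction a with
  | base j e =>
    simp only [mv, Gp.has_mul]
    by_cases h1 : g.Has j <;> by_cases h2 : h.Has j <;> simp [h1, h2]
  | col l F ih => simp [mv, ih]

theorem mv_mv (g : Gp) (a : Lab k) : mv g (mv g a) = a := by
  rw [← mv_mul, Gp.mul_self, mv_one]

/-- The action of the group on the probability space. -/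
noncomputable def mo (g : Gp) (u : Om k) : Om k := fun a => u (mv g a)

theorem mo_one (u : Om k) : mo 1 u = u := funext fun a => by rw [mo, mv_one]

theorem mo_mul (g h : Gp) (u : Om k) : mo (g * h) u = mo g (mo h u) := by
  funext a
  simp only [mo, mul_comm g h, mv_mul]

theorem mo_mo (g : Gp) (u : Om k) : mo g (mo g u) = u := by
  rw [← mo_mul, Gp.mul_self, mo_one]

theorem measurable_mo (g : Gp) : Measurable (mo g : Om k → Om k) :=
  measurable_pi_lambda _ fun _ => measurable_pi_apply _

/-- The element of the Baire space that is coloured at the label `col l F`. -/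
def ev (l : ℕ → Lab k) (F : Fn k) (u : Om k) : ℕ → ℕ := F.1 fun n => u (l n)

theorem measurable_ev (l : ℕ → Lab k) (F : Fn k) : Measurable (ev l F) :=
  F.2.comp (measurable_pi_lambda _ fun _ => measurable_pi_apply _)

theorem ev_mo (g : Gp) (l : ℕ → Lab k) (F : Fn k) (u : Om k) :
    ev l F (mo g u) = ev (fun n => mv g (l n)) F u := rfl

theorem mo_col (g : Gp) (l : ℕ → Lab k) (F : Fn k) (u : Om k) :
    mo g u (.col l F) = u (.col (fun n => mv g (l n)) F) := rfl

/-- The random measure. -/
structure Dat (k : ℕ) (Γ : SimpleGraph (ℕ → ℕ)) where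
  /-- the measure -/
  μ : Measure (Om k)
  prob : IsProbabilityMeasure μ
  /-- it is invariant -/
  inv : ∀ g : Gp, μ.map (mo g) = μ
  /-- the two labels of a bit have different bits -/
  bit : ∀ j : ℝ × ℕ, ∀ᵐ u ∂μ, (u (.base j true)).1 ≠ (u (.base j false)).1
  /-- the colour of an element of the Baire space does not depend on its name -/
  eqc : ∀ (l l' : ℕ → Lab k) (F F' : Fn k), ∀ᵐ u ∂μ, ev l F u = ev l' F' u →
    (u (.col l F)).2 = (u (.col l' F')).2
  /-- adjacent elements of the Baire space have different colours -/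
  adj : ∀ (l l' : ℕ → Lab k) (F F' : Fn k), ∀ᵐ u ∂μ, Γ.Adj (ev l F u) (ev l' F' u) →
    (u (.col l F)).2 ≠ (u (.col l' F')).2

attribute [instance] Dat.prob

/-- **The measure exists.** -/
def S_DAT : Prop := ∀ (k : ℕ) (Γ : SimpleGraph (ℕ → ℕ)),
  MeasurableSet {p : (ℕ → ℕ) × (ℕ → ℕ) | Γ.Adj p.1 p.2} → Γ.Colorable (k + 1) → Nonempty (Dat k Γ)

end Pool.Agent.Y518.CC
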