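import Pool.Agent.Y518.CC.Defs
import Pool.Agent.W910.BG.Point

/-!
# Colourings of Borel graphs without Vitali sets: the notion of forcing and the names
-/

set_option autoImplicit false

namespace Pool.Agent.Y518.CC

open Pool.Agent.W868 Pool.Agent.W868.PName Pool.Agent.W910 Pool.Agent.W910.SY
open MeasureTheory
open ZFSet (pair)

variable {k : ℕ} {Γ : SimpleGraph (ℕ → ℕ)}

/-- The conditions: measurable sets of positive measure. -/
def Cn (D : Dat k Γ) : Type := {B : Set (Om k) // MeasurableSet B ∧ D.μ B ≠ 0}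

variable {D : Dat k Γ}

instance : PartialOrder (Cn D) where
  le B C := B.1 ⊆ C.1
  le_refl B := subset_rfl
  le_trans B C E h h' := h.trans h'
  le_antisymm B C h h' := Subtype.ext (h.antisymm h')

instance : OrderTop (Cn D) where
  top := ⟨Set.univ, MeasurableSet.univ, by rw [measure_univ]; exact one_ne_zero⟩
  le_top B := Set.subset_univ _

theorem Cn.nonempty (B : Cn D) : B.1.Nonempty := by
  rw [Set.nonempty_iff_ne_empty]
  intro h
  exact B.2.2 (by rw [h, measure_empty])

theorem measure_mo (D : Dat k Γ) (g : Gp) {B : Set (Om k)} (hB : MeasurableSet B) :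
    D.μ (mo g ⁻¹' B) = D.μ B := by
  rw [← Measure.map_apply (measurable_mo g) hB, D.inv g]

/-- The action on the conditions. -/
def smC (D : Dat k Γ) (g : Gp) (B : Cn D) : Cn D :=
  ⟨mo g ⁻¹' B.1, measurable_mo g B.2.1, by rw [measure_mo D g B.2.1]; exact B.2.2⟩

theorem smC_one (B : Cn D) : smC D 1 B = B := by
  refine Subtype.ext (Set.ext fun u => ?_)
  change mo 1 u ∈ B.1 ↔ u ∈ B.1
  rw [mo_one]

theorem smC_mul (g h : Gp) (B : Cn D) : smC D (g * h) B = smC D g (smC D h B) := by
  refine Subtype.ext (Set.ext fun u => ?_)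
  change mo (g * h) u ∈ B.1 ↔ mo h (mo g u) ∈ B.1
  rw [mul_comm, mo_mul]

theorem smC_smC (g : Gp) (B : Cn D) : smC D g (smC D g B) = B := by
  rw [← smC_mul, Gp.mul_self, smC_one]

/-- The action on the conditions. -/
def smQ (D : Dat k Γ) (g : Gp) : Cn D ≃o Cn D where
  toFun := smC D g
  invFun := smC D g
  left_inv := smC_smC g
  right_inv := smC_smC g
  map_rel_iff' := by
    intro a b
    have key : ∀ a b : Cn D, a ≤ b → smC D g a ≤ smC D g b := fun a b h u hu => h hu
    refine ⟨fun h => ?_, key a b⟩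
    have h1 := key _ _ h
    change smC D g (smC D g a) ≤ smC D g (smC D g b) at h1
    rwa [smC_smC, smC_smC] at h1

/-- The elements of the group that move no bits with an index in `S`. -/
def Fx (S : Set ℝ) : Subgroup Gp where
  carrier := {g | ∀ j, g.Has j → j.1 ∉ S}
  one_mem' := fun _ h => absurd h Gp.has_one
  mul_mem' := by
    intro g h hg hh j hj
    rw [Gp.has_mul] at hj
    by_cases h1 : g.Has j
    · exact hg j h1
    · exact hh j (by tauto)
  inv_mem' := fun h => h

theorem mem_Fx {S : Set ℝ} {g : Gp} : g ∈ Fx S ↔ ∀ j, g.Has j → j.1 ∉ S := Iff.rfl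

/-- The group and the subgroups that fix countably many indices. -/
noncomputable def sys (D : Dat k Γ) : SY.Sys (Cn D) where
  G := Gp
  grp := inferInstance
  ac :=
    { toFun := smQ D
      map_one' := RelIso.ext fun q => smC_one q
      map_mul' := fun g h => RelIso.ext fun q => smC_mul g h q }
  top := fun _ => Subtype.ext rfl
  F := {H | ∃ S : Set ℝ, S.Countable ∧ H = Fx S}
  ne := ⟨_, ∅, Set.countable_empty, rfl⟩
  conj := by
    rintro _ ⟨S, hS, rfl⟩ g
    refine ⟨_, ⟨S, hS, rfl⟩, fun h hh => ?_⟩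
    rw [mul_comm g⁻¹ h, mul_assoc, inv_mul_cancel, mul_one]
    exact hh
  dir := by
    intro H hH
    choose S hS hH using hH
    refine ⟨_, ⟨⋃ n, S n, Set.countable_iUnion hS, rfl⟩, fun n g hg => ?_⟩
    rw [hH n]
    exact fun j hj hjS => hg j hj (Set.mem_iUnion.2 ⟨n, hjS⟩)

/-! ### Names -/

/-- Names for elements of the Baire space: Borel functions. -/
abbrev NR (k : ℕ) : Type := {f : Om k → ℕ → ℕ // Measurable f}

/-- The arguments of `Lab.col`. -/
abbrev LF (k : ℕ) : Type := (ℕ → Lab k) × Fn k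

/-- The label. -/
abbrev lb (a : LF k) : Lab k := .col a.1 a.2

/-- The element of the Baire space that is coloured at the label `lb a`. -/
def evN (a : LF k) : NR k := ⟨ev a.1 a.2, measurable_ev _ _⟩

/-- The name composed with the action. -/
noncomputable def smR (g : Gp) (f : NR k) : NR k := ⟨fun u => f.1 (mo g u), f.2.comp (measurable_mo g)⟩

variable (D) in
/-- The name for the element of the Baire space given by `f`. -/
noncomputable def realN (f : NR k) : PName (Cn D) :=
  PName.mk {t : (ℕ × ℕ) × Cn D // ∀ u ∈ t.2.1, f.1 u t.1.1 = t.1.2}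
    (fun t => check (pair (nat t.1.1.1) (nat t.1.1.2))) (fun t => t.1.2)

variable (D) in
/-- The name for the colouring. -/
noncomputable def colN : PName (Cn D) :=
  PName.mk {t : (LF k × Fin (k + 1)) × Cn D // ∀ u ∈ t.2.1, (u (lb t.1.1)).2 = t.1.2}
    (fun t => opN (realN D (evN t.1.1.1)) (check (nat (t.1.1.2 : ℕ)))) (fun t => t.1.2)

/-! ### Rules -/

variable (D) in
open Classical in
/-- Rules for the elements of the Baire space. -/
noncomputable def ruR : Set (Rule (Cn D)) :=
  {r0 (fun x _ => Sys.nm (Cn D) {q | ∃ f : NR k, Feq x (realN D f) q}),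
   r0 (fun x p => if h : ∃ f : NR k, Feq x (realN D f) p then check (cd h.choose) else emp),
   r1 (fun (f : NR k) _ => realN D f)}

variable (D) in
/-- Rules for the generic point. -/
noncomputable def ruP : Set (Rule (Cn D)) :=
  {r0 (fun _ p => Sys.nm (Cn D) {r | ∃ K : Set (Om k), IsClosed K ∧ r.1 ⊆ K ∧ K ⊆ p.1}),
   r1 (fun (A : Set (Om k)) _ => Sys.nm (Cn D) {r | r.1 ⊆ A})} ∪
  (Set.range fun n : ℕ => r1 (fun (f : NR k) _ =>
    Sys.nm (Cn D) {r | ∃ m, ∀ u ∈ r.1, f.1 u n = m}))

variable (D) in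
open Classical in
/-- Rules for the colouring. -/
noncomputable def ruC : Set (Rule (Cn D)) :=
  {r1 (fun (a : LF k) _ => check (cd (evN a))),
   r1 (fun (f : NR k) _ => if h : ∃ a : LF k, evN a = f then check (cd h.choose) else emp),
   r1 (fun (a : LF k) _ => Sys.nm (Cn D) {r | ∃ c, ∀ u ∈ r.1, (u (lb a)).2 = c}),
   r2 (fun (a b : LF k) _ => check (cd {u : Om k | (evN a).1 u = (evN b).1 u →
     (u (lb a)).2 = (u (lb b)).2})),
   r2 (fun (a b : LF k) _ => check (cd {u : Om k | Γ.Adj ((evN a).1 u) ((evN b).1 u) →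
     (u (lb a)).2 ≠ (u (lb b)).2})),
   r0 (fun y _ => if h : ∃ a : LF k, y = realN D (evN a) then check (cd h.choose) else emp)} ∪
  (Set.range fun c : Fin (k + 1) => r1 (fun (a : LF k) p =>
    check (cd {u : Om k | u ∈ p.1 → (u (lb a)).2 = c})))

/-- The bits with the index `β`. -/
def bits (β : ℝ) (u : Om k) (n : ℕ) : Bool := (u (.base (β, n) false)).1

theorem measurable_bits (β : ℝ) : Measurable (bits β : Om k → ℕ → Bool) :=
  measurable_pi_lambda _ fun _ => measurable_fst.comp (measurable_pi_apply _)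

/-- The name given by the bits with the index `β` and a Borel function. -/
def fN (φ : {φ : (ℕ → Bool) → ℕ → ℕ // Measurable φ}) (β : ℝ) : NR k :=
  ⟨fun u => φ.1 (bits β u), φ.2.comp (measurable_bits β)⟩

/-- The element of the group that changes the bits with the indices `(β, n)`, `n ∈ s`. -/
noncomputable def gs (β : ℝ) (s : Finset ℕ) : Gp := ⟨s.map ⟨fun n => (β, n), fun _ _ h => by
  simpa using h⟩⟩

/-- The sequence of bits, changed at the places in `s`. -/
def flp (s : Finset ℕ) (b : ℕ → Bool) (n : ℕ) : Bool := b n ^^ decide (n ∈ s)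

variable (D) in
open Classical in
/-- Rules for the absence of transversals. -/
noncomputable def ruK {ι : Type} (φ : ι → {φ : (ℕ → Bool) → ℕ → ℕ // Measurable φ}) :
    Set (Rule (Cn D)) :=
  {r0 (fun x _ => if h : ∃ β : ℝ, ∃ S : Set ℝ, β ∉ S ∧
     ∀ g ∈ Fx S, ∀ p, Feq (act (smQ D g) x) x p then check (cd h.choose) else emp),
   r1 (fun (β : ℝ) p => Sys.nm (Cn D) {r | ∃ s : Finset ℕ, s.Nonempty ∧ r.1 ⊆ p.1 ∧
     r.1 ⊆ mo (gs β s) ⁻¹' p.1})} ∪
  (Set.range fun i : ι => r1 (fun (β : ℝ) _ => check (cd (fN (k := k) (φ i) β)))) ∪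
  (Set.range fun t : ι × Finset ℕ => r1 (fun (β : ℝ) _ =>
    check (cd (smR (gs β t.2) (fN (k := k) (φ t.1) β))))) ∪
  (Set.range fun n : ℕ => r1 (fun (β : ℝ) _ =>
    check (cd {u : Om k | (u (.base (β, n) true)).1 ≠ (u (.base (β, n) false)).1})))

end Pool.Agent.Y518.CC
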