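import Pool.Agent.Y518.CC.FDefs

/-!
# Colourings of Borel graphs without Vitali sets: the steps of the forcing argument
-/

set_option autoImplicit false

namespace Pool.Agent.Y518.CC

open Pool.Agent.W868 Pool.Agent.W868.PName Pool.Agent.W910 Pool.Agent.W910.SY
open MeasureTheory
open Pool.Agent.W910.BG (code)
open ZFSet (pair)

/-- SUP (1). Every Borel function is given by a label. -/
def S_FAC : Prop := ∀ (k : ℕ) (f : NR k), ∃ a : LF k, evN a = f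

/-- SUP (2). Measurable sets have countable supports. -/
def S_SUP : Prop := ∀ (k : ℕ) (B : Set (Om k)), MeasurableSet B →
  ∃ S : Set ℝ, S.Countable ∧ ∀ g ∈ Fx S, mo g ⁻¹' B = B

/-- SUP (3). Borel functions have countable supports. -/
def S_SUF : Prop := ∀ (k : ℕ) (f : NR k), ∃ S : Set ℝ, S.Countable ∧ ∀ g ∈ Fx S, smR g f = f

/-- DST (1). Countably many dense sets have countable predense subsets. -/
def S_DS2 : Prop := ∀ (k : ℕ) (Γ : SimpleGraph (ℕ → ℕ)) (D : Dat k Γ) (E : ℕ → Set (Cn D))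
  (p₀ : Cn D), (∀ n, ∀ q ∈ E n, ∀ r ≤ q, r ∈ E n) → (∀ n, ∀ q ≤ p₀, ∃ r ≤ q, r ∈ E n) →
    ∃ m : ℕ → ℕ → Cn D, (∀ n j, m n j ∈ E n) ∧
      ∀ n, ∀ q ≤ p₀, ∃ j, D.μ (q.1 ∩ (m n j).1) ≠ 0

/-- DST (2). Distributivity. -/
def S_DST : Prop := ∀ (k : ℕ) (Γ : SimpleGraph (ℕ → ℕ)) (D : Dat k Γ), (sys D).Dst

/-- NAM. Symmetry of the names. -/
def S_NAM : Prop := ∀ (k : ℕ) (Γ : SimpleGraph (ℕ → ℕ)) (D : Dat k Γ),
  (∀ f : NR k, (sys D).HS (realN D f)) ∧ (sys D).HS (colN D) ∧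
  ∀ (g : Gp) (f : NR k) (p : Cn D), Feq (act (smQ D g) (realN D f)) (realN D (smR g f)) p

/-- REAL. All elements of the Baire space have simple names. -/
def S_REAL : Prop := ∀ (k : ℕ) (Γ : SimpleGraph (ℕ → ℕ)) (D : Dat k Γ) (π : Pkg (Cn D)),
  ClR (ruR D) π → ∀ s ∈ π.W, ZFSet.IsFunc ZFSet.omega ZFSet.omega s →
    ∃ f : NR k, Hul π f ∧ s = π.val (realN D f)

/-- `x` is the generic point. -/
def IsPt {k : ℕ} {Γ : SimpleGraph (ℕ → ℕ)} {D : Dat k Γ} (π : Pkg (Cn D)) (x : Om k) : Prop :=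
  (∀ i, x ∈ (π.g i).1) ∧
  (∀ A : Set (Om k), Hul π A → (∀ᵐ u ∂D.μ, u ∈ A) → x ∈ A) ∧
  ∀ f : NR k, Hul π f → π.val (realN D f) = code (f.1 x)

/-- POINT. The generic point exists. -/
def S_PT : Prop := ∀ (k : ℕ) (Γ : SimpleGraph (ℕ → ℕ)) (D : Dat k Γ) (π : Pkg (Cn D))
  (R : Set (Rule (Cn D))), ClR R π → ruP D ⊆ R → ∃ x : Om k, IsPt π x

/-- COL. The colouring. -/
def S_COL : Prop := ∀ (k : ℕ) (Γ : SimpleGraph (ℕ → ℕ)) (D : Dat k Γ) (π : Pkg (Cn D))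
  (R : Set (Rule (Cn D))), ClR R π → ruR D ⊆ R → ruP D ⊆ R → ruC D ⊆ R →
    ∀ x : Om k, IsPt π x → colN D ∈ π.N →
      (∀ f : NR k, Hul π f → ∃ c : Fin (k + 1), pair (code (f.1 x)) (nat c) ∈ π.val (colN D)) ∧
      (∀ z ∈ π.val (colN D), ∃ (f : NR k) (c : Fin (k + 1)), Hul π f ∧
        z = pair (code (f.1 x)) (nat c)) ∧
      (∀ (y : ℕ → ℕ) (c c' : Fin (k + 1)), pair (code y) (nat c) ∈ π.val (colN D) →
        pair (code y) (nat c') ∈ π.val (colN D) → c = c') ∧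
      (∀ (y y' : ℕ → ℕ), Γ.Adj y y' → ∀ c c' : Fin (k + 1),
        pair (code y) (nat c) ∈ π.val (colN D) → pair (code y') (nat c') ∈ π.val (colN D) →
          c ≠ c')

/-- KIL. Many elements of a symmetric set can be moved. -/
def S_KIL : Prop := ∀ (k : ℕ) (Γ : SimpleGraph (ℕ → ℕ)) (D : Dat k Γ) (ι : Type)
  (φ : ι → {φ : (ℕ → Bool) → ℕ → ℕ // Measurable φ}) (π : Pkg (Cn D)) (R : Set (Rule (Cn D))),
    ClR R π → ruR D ⊆ R → ruP D ⊆ R → ruK D φ ⊆ R → ∀ x : Om k, IsPt π x →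
      ∀ T ∈ π.N, (sys D).HS T → ∃ β : ℝ, Hul π β ∧ ∀ i, code ((φ i).1 (bits β x)) ∈ π.val T →
        ∃ s : Finset ℕ, s.Nonempty ∧ code ((φ i).1 (flp s (bits β x))) ∈ π.val T

end Pool.Agent.Y518.CC
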