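import Pool.Agent.Y518.CC.Step

/-!
# The measure exists
-/

set_option autoImplicit false

namespace Pool.Agent.Y518.CC.MAsm

open MeasureTheory Filter Topology Step

variable {k : ℕ} {Γ : SimpleGraph (ℕ → ℕ)}

/-- The points with the letters `σ` at the labels in `O`. -/
def Cy (O : Finset (Lab k)) (σ : O → Al k) : Set (Om k) := {u | ∀ a ∈ O, u a = xt O σ a}

theorem cy_meas {O : Finset (Lab k)} {S : Set (Lab k)} (hO : ∀ a ∈ O, a ∈ S) (σ : O → Al k) :
    MeasurableSet[cE S] (Cy O σ) := by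
  have h1 : Cy O σ = ⋂ a ∈ O, (fun u : Om k => u a) ⁻¹' {xt O σ a} := by
    ext u
    simp [Cy]
  rw [h1]
  refine Finset.measurableSet_biInter _ fun a ha => ?_
  have h2 : @Measurable _ _ (cE S) _ fun u : Om k => u a := measurable_cylinderEvent_apply (hO a ha)
  exact h2 (MeasurableSet.of_discrete (s := {xt O σ a}))

theorem cy_mem (O : Finset (Lab k)) (σ : O → Al k) : Cy O σ ∈ cF k := by
  have h1 : Cy O σ = cylinder O ({σ} : Set (O → Al k)) := by
    ext u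
    rw [mem_cylinder, Set.mem_singleton_iff]
    constructor
    · intro h
      funext a
      have h2 := h a.1 a.2
      rw [xt_mem σ a.2] at h2
      exact h2
    · intro h a ha
      rw [xt_mem σ ha, ← h]
      rfl
  rw [h1]
  exact cylinder_mem_measurableCylinders _ _ MeasurableSet.of_discrete

/-- Goodness is a property of finitely many events. -/
theorem good_iff (hK : S_KEY)
    (hΓ : MeasurableSet {p : (ℕ → ℕ) × (ℕ → ℕ) | Γ.Adj p.1 p.2}) {S : Set (Lab k)}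
    {O : Finset (Lab k)} (hO : ∀ a ∈ O, a ∈ nx S) (μ : Measure (Om k)) [IsProbabilityMeasure μ] :
    ∃ B : (O → Al k) → Set (Om k), (∀ σ, MeasurableSet[cE S] (B σ)) ∧
      ∀ ν : Measure (Om k), IsProbabilityMeasure ν →
        (∀ B, MeasurableSet[cE S] B → ν B = μ B) →
          ((∀ᵐ u ∂ν, Good Γ O u) ↔ ∀ σ, ν (B σ ∩ Cy O σ) = 0) := by
  obtain ⟨B, hB1, hB2, hB3⟩ := exists_bad hK hΓ hO μ
  refine ⟨B, hB1, fun ν hν hm => ⟨fun h σ => ?_, fun h => ?_⟩⟩
  · rw [measure_eq_zero_iff_ae_notMem]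
    filter_upwards [h, hB3 ν hν hm σ] with u hu1 hu2 hu3
    refine hu2 hu3.1 ?_
    exact goodS_congr hO (fun a ha => hu3.2 a ha) (fun _ _ => rfl) hu1
  · have h1 : ∀ᵐ u ∂ν, ∀ σ, u ∉ B σ ∩ Cy O σ :=
      ae_all_iff.2 fun σ => measure_eq_zero_iff_ae_notMem.1 (h σ)
    filter_upwards [h1] with u hu
    by_contra hcon
    have hx : ∀ a ∈ O, u a = xt O (fun a => u a.1) a := fun a ha => (xt_mem (fun a => u a.1) ha).symm
    refine hu (fun a => u a.1) ⟨hB2 _ _ fun h2 => hcon ?_, hx⟩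
    exact goodS_congr hO (fun a ha => (hx a ha).symm) (fun _ _ => rfl) h2

/-- Admissible pairs. -/
structure Adm (Γ : SimpleGraph (ℕ → ℕ)) (p : Set (Lab k) × Measure (Om k)) : Prop where
  sub : p.1 ⊆ nx p.1
  inv : ∀ (g : Gp), ∀ a ∈ p.1, mv g a ∈ p.1
  prob : IsProbabilityMeasure p.2
  map : ∀ g : Gp, p.2.map (mo g) = p.2
  good : ∀ O : Finset (Lab k), (∀ a ∈ O, a ∈ p.1) → ∀ᵐ u ∂p.2, Good Γ O u

/-- The order. -/
def Le (p q : Set (Lab k) × Measure (Om k)) : Prop :=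
  p.1 ⊆ q.1 ∧ ∀ B, MeasurableSet[cE p.1] B → q.2 B = p.2 B

theorem cE_mono {S T : Set (Lab k)} (h : S ⊆ T) {B : Set (Om k)} (hB : MeasurableSet[cE S] B) :
    MeasurableSet[cE T] B := cylinderEvents_mono h _ hB

theorem Le.trans {p q r : Set (Lab k) × Measure (Om k)} (h : Le p q) (h' : Le q r) : Le p r :=
  ⟨h.1.trans h'.1, fun B hB => (h'.2 B (cE_mono h.1 hB)).trans (h.2 B hB)⟩

theorem Le.refl (p : Set (Lab k) × Measure (Om k)) : Le p p := ⟨subset_rfl, fun _ _ => rfl⟩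

theorem cF_mo (g : Gp) {C : Set (Om k)} (hC : C ∈ cF k) : mo g ⁻¹' C ∈ cF k := by
  classical
  obtain ⟨s, T, hT, rfl⟩ := (mem_measurableCylinders C).1 hC
  refine (mem_measurableCylinders _).2 ⟨s.image (mv g), {v | (fun a : s =>
    v ⟨mv g a.1, Finset.mem_image_of_mem _ a.2⟩) ∈ T}, MeasurableSet.of_discrete, ?_⟩
  ext u
  rfl

/-- Measures that agree on cylinders are equal. -/
theorem ext_cF {μ ν : Measure (Om k)} [IsProbabilityMeasure μ] [IsProbabilityMeasure ν]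
    (h : ∀ C ∈ cF k, μ C = ν C) : μ = ν := by
  refine MeasureTheory.ext_of_generate_finite (cF k)
    (generateFrom_measurableCylinders (α := fun _ : Lab k => Al k)).symm
    isPiSystem_measurableCylinders h ?_
  rw [measure_univ, measure_univ]

/-- The properties of the limits. -/
theorem lim (hKOL : S_KOL) (hREG : S_REG) {Δ : Type} (ν : Δ → Measure (Om k))
    (hν : ∀ d, IsProbabilityMeasure (ν d)) (U : Ultrafilter Δ)
    (hinv : ∀ g : Gp, ∀ᶠ d in (U : Filter Δ), (ν d).map (mo g) = ν d) :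
    ∃ μ : Measure (Om k), IsProbabilityMeasure μ ∧ (∀ g : Gp, μ.map (mo g) = μ) ∧
      ∀ (S : Set (Lab k)) (μ₀ : Measure (Om k)), IsProbabilityMeasure μ₀ →
        (∀ B, MeasurableSet[cE S] B → ∀ᶠ d in (U : Filter Δ), ν d B = μ₀ B) →
          (∀ B, MeasurableSet[cE S] B → μ B = μ₀ B) ∧
          ∀ B, MeasurableSet[cE S] B → ∀ C ∈ cF k,
            Tendsto (fun d => ν d (B ∩ C)) U (𝓝 (μ (B ∩ C))) := by
  obtain ⟨μ, hμ, hlim⟩ := hKOL k Δ ν hν U
  refine ⟨μ, hμ, fun g => ?_, fun S μ₀ hμ₀ h => ?_⟩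
  · have : IsProbabilityMeasure (μ.map (mo g)) :=
      Measure.isProbabilityMeasure_map (measurable_mo g).aemeasurable
    refine ext_cF fun C hC => ?_
    rw [Measure.map_apply (measurable_mo g) (MeasurableSet.of_mem_measurableCylinders hC)]
    refine tendsto_nhds_unique (hlim _ (cF_mo g hC)) ((hlim C hC).congr' ?_)
    filter_upwards [hinv g] with d hd
    conv_lhs => rw [← hd]
    rw [Measure.map_apply (measurable_mo g) (MeasurableSet.of_mem_measurableCylinders hC)]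
  · have h1 := hREG k Δ ν hν U μ hμ hlim S μ₀ hμ₀ h
    refine ⟨fun B hB => ?_, h1⟩
    have h2 := h1 B hB Set.univ (univ_mem_measurableCylinders _)
    simp only [Set.inter_univ] at h2
    exact tendsto_nhds_unique h2 (tendsto_const_nhds.congr' ((h B hB).mono fun d hd => hd.symm))

theorem chain (hKOL : S_KOL) (hREG : S_REG) (hK : S_KEY)
    (hΓ : MeasurableSet {p : (ℕ → ℕ) × (ℕ → ℕ) | Γ.Adj p.1 p.2})
    (c : Set {p : Set (Lab k) × Measure (Om k) // Adm Γ p})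
    (hc : IsChain (fun p q => Le p.1 q.1) c) (hne : c.Nonempty) :
    ∃ ub : {p : Set (Lab k) × Measure (Om k) // Adm Γ p}, ∀ p ∈ c, Le p.1 ub.1 := by
  classical
  obtain ⟨p₀, hp₀⟩ := hne
  have : Nonempty c := ⟨⟨p₀, hp₀⟩⟩
  have hcmp : ∀ p q : c, Le p.1.1 q.1.1 ∨ Le q.1.1 p.1.1 := by
    intro p q
    by_cases h : p = q
    · rw [h]
      exact Or.inl (Le.refl _)
    · exact hc p.2 q.2 fun h1 => h (Subtype.ext h1)
  have hdir : ∀ p q : c, ∃ r : c, Le p.1.1 r.1.1 ∧ Le q.1.1 r.1.1 := by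
    intro p q
    rcases hcmp p q with h | h
    · exact ⟨q, h, Le.refl _⟩
    · exact ⟨p, Le.refl _, h⟩
  let F : Filter c := ⨅ p : c, 𝓟 {q : c | Le p.1.1 q.1.1}
  have hF : F.NeBot := by
    refine iInf_neBot_of_directed' (fun p q => ?_) fun p => principal_neBot_iff.2 ⟨p, Le.refl _⟩
    obtain ⟨r, h1, h2⟩ := hdir p q
    exact ⟨r, principal_mono.2 fun s hs => h1.trans hs, principal_mono.2 fun s hs => h2.trans hs⟩
  let U : Ultrafilter c := Ultrafilter.of F
  have hU : ∀ p : c, ∀ᶠ q in (U : Filter c), Le p.1.1 q.1.1 := fun p =>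
    Ultrafilter.of_le F (mem_iInf_of_mem p (mem_principal_self _))
  obtain ⟨μ, hμ, hinv, hlim⟩ := lim hKOL hREG (fun d : c => d.1.1.2) (fun d => d.1.2.prob) U
    (fun g => Filter.Eventually.of_forall fun d => d.1.2.map g)
  have hag : ∀ p : c, ∀ B, MeasurableSet[cE p.1.1.1] B → μ B = p.1.1.2 B := fun p =>
    (hlim p.1.1.1 p.1.1.2 p.1.2.prob fun B hB => (hU p).mono fun q hq => hq.2 B hB).1
  refine ⟨⟨(⋃ p : c, p.1.1.1, μ), ?_, ?_, hμ, hinv, ?_⟩, fun p hp =>
    ⟨Set.subset_iUnion (fun p : c => p.1.1.1) ⟨p, hp⟩, hag ⟨p, hp⟩⟩⟩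
  · intro a ha
    obtain ⟨p, hp⟩ := Set.mem_iUnion.1 ha
    have h1 := p.1.2.sub hp
    cases a with
    | base j e => trivial
    | col l F => exact fun n => Set.mem_iUnion.2 ⟨p, h1 n⟩
  · intro g a ha
    obtain ⟨p, hp⟩ := Set.mem_iUnion.1 ha
    exact Set.mem_iUnion.2 ⟨p, p.1.2.inv g a hp⟩
  · intro O hO
    have h1 : ∃ p : c, ∀ a ∈ O, a ∈ p.1.1.1 := by
      induction O using Finset.induction_on with
      | empty => exact ⟨⟨p₀, hp₀⟩, fun a ha => absurd ha (Finset.notMem_empty a)⟩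
      | insert a O _ ih =>
        obtain ⟨p, hp⟩ := ih fun b hb => hO b (Finset.mem_insert_of_mem hb)
        obtain ⟨q, hq⟩ := Set.mem_iUnion.1 (hO a (Finset.mem_insert_self a O))
        obtain ⟨r, h2, h3⟩ := hdir p q
        refine ⟨r, fun b hb => ?_⟩
        rcases Finset.mem_insert.1 hb with rfl | hb
        · exact h3.1 hq
        · exact h2.1 (hp b hb)
    obtain ⟨p, hp⟩ := h1
    have := p.1.2.prob
    obtain ⟨B, hB, h2⟩ := good_iff hK hΓ (fun a ha => p.1.2.sub (hp a ha)) p.1.1.2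
    rw [h2 μ hμ (hag p)]
    intro σ
    rw [hag p _ (@MeasurableSet.inter _ (cE p.1.1.1) _ _ (hB σ) (cy_meas hp σ))]
    exact (h2 p.1.1.2 p.1.2.prob fun _ _ => rfl).1 (p.1.2.good O hp) σ

theorem extend (hKOL : S_KOL) (hREG : S_REG) (hK : S_KEY) (hST : S_STEP)
    (hΓ : MeasurableSet {p : (ℕ → ℕ) × (ℕ → ℕ) | Γ.Adj p.1 p.2})
    {p : Set (Lab k) × Measure (Om k)} (hp : Adm Γ p) :
    ∃ q : Set (Lab k) × Measure (Om k), Adm Γ q ∧ q.1 = nx p.1 ∧ Le p q := by
  classical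
  have := hp.prob
  have h1 : ∀ d : Finset (Lab k) × Finset (ℝ × ℕ), ∃ ν : Measure (Om k), IsProbabilityMeasure ν ∧
      (∀ B, MeasurableSet[cE p.1] B → ν B = p.2 B) ∧
      (∀ g : Gp, g.s ⊆ d.2 → ν.map (mo g) = ν) ∧
        ∀ᵐ u ∂ν, Good Γ (d.1.filter (· ∈ nx p.1)) u := fun d =>
    hST k Γ hΓ p.1 hp.sub hp.inv p.2 hp.prob hp.map hp.good _
      (fun a ha => (Finset.mem_filter.1 ha).2) d.2
  choose ν hν1 hν2 hν3 hν4 using h1
  let U : Ultrafilter (Finset (Lab k) × Finset (ℝ × ℕ)) := Ultrafilter.of atTop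
  have hU : ∀ d₀ : Finset (Lab k) × Finset (ℝ × ℕ), ∀ᶠ d in
      (U : Filter (Finset (Lab k) × Finset (ℝ × ℕ))), d₀ ≤ d := fun d₀ =>
    Ultrafilter.of_le atTop (mem_atTop d₀)
  obtain ⟨μ, hμ, hinv, hlim⟩ := lim hKOL hREG ν hν1 U (fun g =>
    (hU (∅, g.s)).mono fun d hd => hν3 d g hd.2)
  obtain ⟨hag, hlim'⟩ := hlim p.1 p.2 hp.prob fun B hB =>
    Filter.Eventually.of_forall fun d => hν2 d B hB
  refine ⟨(nx p.1, μ), ⟨?_, fun g a ha => mv_nx hp.inv g ha, hμ, hinv, ?_⟩, rfl, hp.sub, hag⟩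
  · intro a ha
    cases a with
    | base j e => trivial
    | col l F => exact fun n => hp.sub (ha n)
  · intro O hO
    obtain ⟨B, hB, h2⟩ := good_iff hK hΓ hO p.2
    rw [h2 μ hμ hag]
    intro σ
    refine tendsto_nhds_unique (hlim' _ (hB σ) _ (cy_mem O σ))
      (tendsto_const_nhds.congr' ((hU (O, ∅)).mono fun d hd => ?_))
    refine ((h2 (ν d) (hν1 d) (hν2 d)).1 ?_ σ).symm
    refine (hν4 d).mono fun u hu => good_mono (fun a ha => ?_) hu
    exact Finset.mem_filter.2 ⟨hd.1 ha, hO a ha⟩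

theorem main (hKOL : S_KOL) (hREG : S_REG) (hK : S_KEY) (hST : S_STEP) : S_DAT := by
  classical
  intro k Γ hΓ hcol
  have hstart : ∃ p : Set (Lab k) × Measure (Om k), Adm Γ p := by
    refine ⟨(∅, Measure.dirac fun _ => default), fun a ha => ha.elim, fun g a ha => ha.elim,
      inferInstance, fun g => ?_, fun O hO => ?_⟩
    · rw [Measure.map_dirac' (measurable_mo g)]
      rfl
    · refine Filter.Eventually.of_forall fun u Z => ?_
      obtain ⟨t⟩ := hcol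
      refine ⟨fun _ => false, t, fun y _ z _ h => t.valid h, fun a ha => (hO a ha).elim⟩
  obtain ⟨p, hp⟩ := exists_maximal_of_chains_bounded
    (α := {p : Set (Lab k) × Measure (Om k) // Adm Γ p}) (r := fun p q => Le p.1 q.1)
    (fun c hc => by
      rcases c.eq_empty_or_nonempty with rfl | hne
      · obtain ⟨p, hp⟩ := hstart
        exact ⟨⟨p, hp⟩, fun _ h => h.elim⟩
      · exact chain hKOL hREG hK hΓ c hc hne) (fun h h' => h.trans h')
  obtain ⟨q, hq, hqn, hpq⟩ := extend hKOL hREG hK hST hΓ p.2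
  have h1 : nx p.1.1 ⊆ p.1.1 := by
    rw [← hqn]
    exact (hp ⟨q, hq⟩ hpq).1
  have h2 : ∀ a : Lab k, a ∈ p.1.1 := by
    intro a
    induction a with
    | base j e => exact h1 trivial
    | col l F ih => exact h1 ih
  have hg : ∀ O : Finset (Lab k), ∀ᵐ u ∂p.1.2, Good Γ O u := fun O => p.2.good O fun a _ => h2 a
  refine ⟨⟨p.1.2, p.2.prob, p.2.map, fun j => ?_, fun l l' F F' => ?_, fun l l' F F' => ?_⟩⟩
  · filter_upwards [hg {.base j true, .base j false}] with u hu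
    obtain ⟨b, t, -, h3⟩ := hu ∅
    rw [h3 (.base j true) (by simp), h3 (.base j false) (by simp)]
    simp [vl]
  · filter_upwards [hg {.col l F, .col l' F'}] with u hu h
    obtain ⟨b, t, -, h3⟩ := hu ∅
    rw [h3 (.col l F) (by simp), h3 (.col l' F') (by simp)]
    simp only [vl, h]
  · filter_upwards [hg {.col l F, .col l' F'}] with u hu h
    obtain ⟨b, t, h4, h3⟩ := hu {ev l F u, ev l' F' u}
    rw [h3 (.col l F) (by simp), h3 (.col l' F') (by simp)]
    exact h4 _ (by simp) _ (by simp) h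

end Pool.Agent.Y518.CC.MAsm
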