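import Pool.Agent.Y518.CC.Vit
import Pool.Agent.Y518.CC.MAsm
import Pool.Agent.Y759.CC.Kol
import Pool.Agent.Y620.CC.Reg
import Pool.Agent.Y659.CC.KEY
import Pool.Agent.Y659.CC.DST
import Pool.Agent.Y914.CC.Sup
import Pool.Agent.Y469.CC.Nam
import Pool.Agent.Y281.CC.REAL
import Pool.Agent.Y421.CC.Point
import Pool.Agent.Y279.CC.Col
import Pool.Agent.Y681.CC.KIL

/-!
# Colourings of Borel graphs without Vitali sets
-/

set_option autoImplicit false

namespace Pool.Agent.Y518.CC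

open Pool.Agent.W868 Pool.Agent.W910 Pool.Agent.W910.SY MeasureTheory
open Pool.Agent.W910.BG (code im im_adj im_borel loop_even)
open ZFSet (pair)

theorem dat : S_DAT :=
  MAsm.main Y759.CC.main Y620.CC.Reg.main Y659.CC.KEY.main (Step.main Y659.CC.KEY.main)

theorem core : Core.S_CORE :=
  Core.core dat (Y659.CC.DST.main2 Y914.CC.sSup) (Y469.CC.Nam.main Y914.CC.sSuf)
    (Y281.CC.REAL.main Y659.CC.DST.main) Y421.CC.main (Y279.CC.main Y914.CC.sFac)
    (Y681.CC.KIL.main (Y469.CC.Nam.main Y914.CC.sSuf))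

theorem im_colorable {X : Type} {G : SimpleGraph X} {e : X → ℕ → ℕ} (he : Function.Injective e)
    {k : ℕ} (h : G.Colorable (k + 1)) : (im G e he).Colorable (k + 1) := by
  classical
  obtain ⟨C⟩ := h
  refine ⟨SimpleGraph.Coloring.mk (fun y => if h : ∃ x, e x = y then C h.choose else 0) ?_⟩
  intro a b hab
  obtain ⟨x, y, h3, rfl, rfl⟩ := hab
  have h4 : ∃ x', e x' = e x := ⟨x, rfl⟩
  have h5 : ∃ y', e y' = e y := ⟨y, rfl⟩
  have h6 : h4.choose = x := he h4.choose_spec
  have h7 : h5.choose = y := he h5.choose_spec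
  change (if h : ∃ x', e x' = e x then C h.choose else 0) ≠
    if h : ∃ y', e y' = e y then C h.choose else 0
  rw [dif_pos h4, dif_pos h5, h6, h7]
  exact C.valid h3

/-- The Borel functions for the two equivalence relations. -/
noncomputable def ph : ℚ ⊕ Finset ℕ → {φ : (ℕ → Bool) → ℕ → ℕ // Measurable φ}
  | .inl q => ⟨fun b => cut (rr b + q), measurable_cut.comp (measurable_rr.add_const _)⟩
  | .inr q => ⟨fun b => bin (flp q b), measurable_bin.comp (measurable_pi_lambda _ fun n => by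
      have h1 : Measurable fun x : Bool => x ^^ decide (n ∈ q) := measurable_of_countable _
      exact h1.comp (measurable_pi_apply n))⟩

/-- **The model.** -/
theorem model {X : Type} [MeasurableSpace X] [StandardBorelSpace X]
    (G : SimpleGraph X) (hG : MeasurableSet {p : X × X | G.Adj p.1 p.2}) {k : ℕ} (hk : 0 < k)
    (hc : G.Colorable k) (e : X → ℕ → ℕ) (he : Measurable e) (inj : Function.Injective e)
    (z : ℕ → ℕ) :
    ∃ M : Set ZFSet.{0}, M.Countable ∧ IsZF M ∧ DC M ∧ code z ∈ M ∧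
      (∃ c ∈ M, IsCol M G e k c) ∧ (¬ ∃ T ∈ M, IsVitali M T) ∧ ¬ ∃ T ∈ M, IsE0Tr M T := by
  obtain ⟨k, rfl⟩ : ∃ m, k = m + 1 := ⟨k - 1, by omega⟩
  obtain ⟨M, h1, h2, h3, h4, ⟨c, hcM, h5, h6⟩, h7⟩ := core k (im G e inj) (im_borel hG he inj)
    (im_colorable inj hc) (ℚ ⊕ Finset ℕ) ph z
  refine ⟨M, h1, h2, h3, h4, ⟨c, hcM, h5, fun x y h => h6 _ _ (im_adj inj h)⟩, no_vitali ?_,
    no_e0 ?_⟩
  · intro T hT
    obtain ⟨b, h8, h9⟩ := h7 T hT
    exact ⟨b, fun q => h8 (.inl q), fun q => h9 (.inl q)⟩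
  · intro T hT
    obtain ⟨b, h8, h9⟩ := h7 T hT
    exact ⟨b, fun q => h8 (.inr q), fun q => h9 (.inr q)⟩

/-- A graph without odd cycles is 2-colourable. -/
theorem colorable_two {X : Type} {G : SimpleGraph X}
    (hc : ∀ (x : X) (w : G.Walk x x), w.IsCycle → Even w.length) : G.Colorable 2 :=
  SimpleGraph.two_colorable_iff_forall_loop_even.2 fun _ w => loop_even hc w

end Pool.Agent.Y518.CC
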