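import Pool.Agent.Y518.CC.Core
import Pool.Agent.W910.BG.Bip

/-!
# Colourings and transversals in transitive models
-/

set_option autoImplicit false

namespace Pool.Agent.Y518.CC

open Pool.Agent.W868 Pool.Agent.W910 Pool.Agent.W910.SY
open Pool.Agent.W910.BG (code)
open ZFSet (pair)

/-- In the transitive class `M`, the set `c` is a function from the Baire space (that is, from the
set of the functions from `ω` to `ω` in `M`) to `k = {0, ..., k - 1}`, and for adjacent vertices
`x`, `y` of the graph `Γ` on the set `X`, the functions `e x` and `e y` (if they are in `M`) do not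
have the same value. -/
def IsCol (M : Set ZFSet.{0}) {X : Type} (Γ : SimpleGraph X) (e : X → ℕ → ℕ) (k : ℕ)
    (c : ZFSet.{0}) : Prop :=
  (∃ N ∈ M, (∀ y, y ∈ N ↔ y ∈ M ∧ ZFSet.IsFunc ZFSet.omega ZFSet.omega y) ∧
    ZFSet.IsFunc N (nat k) c) ∧
  ∀ x y : X, Γ.Adj x y → ∀ i, ¬ (pair (code (e x)) i ∈ c ∧ pair (code (e y)) i ∈ c)

open Classical in
/-- The Dedekind cut of the real number `r`, as a function on the natural numbers: the value at
`n` is `1` if the `n`-th rational number (in a fixed enumeration of all rational numbers) is
smaller than `r`, and `0` otherwise. -/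
noncomputable def cut (r : ℝ) (n : ℕ) : ℕ := if ((Denumerable.ofNat ℚ n : ℚ) : ℝ) < r then 1 else 0

/-- In the transitive class `M`, the set `T` is a transversal of the Vitali equivalence relation
(`r` and `s` are equivalent if `r - s` is rational) on the real numbers. The real numbers of `M`
are the real numbers `r` whose Dedekind cut is in `M`. All elements of `T` are (Dedekind cuts of)
real numbers, and for every real number `r` of `M` there is exactly one real number `s` in `T`
such that `s - r` is rational. -/
def IsVitali (M : Set ZFSet.{0}) (T : ZFSet.{0}) : Prop :=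
  (∀ t ∈ T, ∃ r : ℝ, t = code (cut r)) ∧
  ∀ r : ℝ, code (cut r) ∈ M → ∃! s : ℝ, code (cut s) ∈ T ∧ ∃ q : ℚ, s - r = q

/-- The sequence of bits `a` as a function from the natural numbers to `{0, 1}`. -/
def bin (a : ℕ → Bool) (n : ℕ) : ℕ := if a n then 1 else 0

/-- In the transitive class `M`, the set `T` is a transversal of the relation `E₀` on the Cantor
space (`a` and `b` are equivalent if `a n = b n` for all but finitely many `n`). The elements of
the Cantor space of `M` are the sequences of bits `a` that are in `M`. All elements of `T` are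
sequences of bits, and for every sequence `a` in `M` there is exactly one sequence `b` in `T` that
is equivalent to `a`. -/
def IsE0Tr (M : Set ZFSet.{0}) (T : ZFSet.{0}) : Prop :=
  (∀ t ∈ T, ∃ a : ℕ → Bool, t = code (bin a)) ∧
  ∀ a : ℕ → Bool, code (bin a) ∈ M →
    ∃! b : ℕ → Bool, code (bin b) ∈ T ∧ ∃ m, ∀ n ≥ m, b n = a n

end Pool.Agent.Y518.CC
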