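import Pool.Agent.Y518.CC.MStm

/-!
# Basic facts about good points
-/

set_option autoImplicit false

namespace Pool.Agent.Y518.CC

open MeasureTheory Filter Topology

variable {k : ℕ} {Γ : SimpleGraph (ℕ → ℕ)}

theorem cE_le (S : Set (Lab k)) : cE S ≤ MeasurableSpace.pi := cylinderEvents_le_pi

/-- The events of `cE S` depend only on the letters at the labels in `S`. -/
theorem cE_dep {S : Set (Lab k)} {B : Set (Om k)} (hB : MeasurableSet[cE S] B) {u v : Om k}
    (h : ∀ a ∈ S, u a = v a) : u ∈ B ↔ v ∈ B := by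
  have h1 : cE S = MeasurableSpace.comap (S.domRestrict : Om k → S → Al k) MeasurableSpace.pi := by
    rw [MeasurableSpace.pi, MeasurableSpace.comap_iSup]
    simp only [MeasurableSpace.comap_comp]
    unfold cE cylinderEvents
    rw [iSup_subtype']
    rfl
  rw [h1] at hB
  obtain ⟨B', -, rfl⟩ := hB
  have h2 : S.domRestrict u = S.domRestrict v := funext fun a => h a.1 a.2
  rw [Set.mem_preimage, Set.mem_preimage, h2]

theorem cE_mo {S : Set (Lab k)} (hS : ∀ g : Gp, ∀ a ∈ S, mv g a ∈ S) (g : Gp) :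
    @Measurable _ _ (cE S) (cE S) (mo g : Om k → Om k) := by
  rw [measurable_cylinderEvents_iff]
  intro a ha
  exact measurable_cylinderEvent_apply (hS g a ha)

theorem mv_nx {S : Set (Lab k)} (hS : ∀ g : Gp, ∀ a ∈ S, mv g a ∈ S) (g : Gp) {a : Lab k}
    (ha : a ∈ nx S) : mv g a ∈ nx S := by
  cases a with
  | base j e => trivial
  | col l F => exact fun n => hS g _ (ha n)

theorem ev_congr {S : Set (Lab k)} {l : ℕ → Lab k} {F : Fn k} (h : Lab.col l F ∈ nx S)
    {u v : Om k} (huv : ∀ a ∈ S, u a = v a) : ev l F u = ev l F v := by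
  exact congrArg F.1 (funext fun n => huv _ (h n))

theorem vl_congr {S : Set (Lab k)} {a : Lab k} (h : a ∈ nx S) {u v : Om k}
    (huv : ∀ a ∈ S, u a = v a) (b : ℝ × ℕ → Bool) (t : (ℕ → ℕ) → Fin (k + 1)) :
    vl b t u a = vl b t v a := by
  cases a with
  | base j e => rfl
  | col l F => simp only [vl, ev_congr h huv]

theorem good_mono {O O' : Finset (Lab k)} (h : O ⊆ O') {u : Om k} (hu : Good Γ O' u) :
    Good Γ O u := by
  intro Z
  obtain ⟨b, t, h1, h2⟩ := hu Z
  exact ⟨b, t, h1, fun a ha => h2 a (h ha)⟩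

theorem goodS_congr {S : Set (Lab k)} {O : Finset (Lab k)} (hO : ∀ a ∈ O, a ∈ nx S)
    {s s' u u' : Om k} (hs : ∀ a ∈ O, s a = s' a) (hu : ∀ a ∈ S, u a = u' a)
    (h : GoodS Γ O s u) : GoodS Γ O s' u' := by
  intro Z
  obtain ⟨b, t, h1, h2⟩ := h Z
  refine ⟨b, t, h1, fun a ha => ?_⟩
  rw [← hs a ha, h2 a ha, vl_congr (hO a ha) hu]

open Classical in
theorem good_mo {O O' : Finset (Lab k)} {g : Gp} (h : ∀ a ∈ O, mv g a ∈ O') {u : Om k}
    (hu : Good Γ O' u) : Good Γ O (mo g u) := by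
  intro Z
  obtain ⟨b, t, h1, h2⟩ := hu Z
  refine ⟨fun j => b j ^^ decide (g.Has j), t, h1, fun a ha => ?_⟩
  change u (mv g a) = _
  rw [h2 _ (h a ha)]
  cases a with
  | base j e => simp only [mv, vl, Bool.xor_assoc, Bool.xor_comm e]
  | col l F => rfl

end Pool.Agent.Y518.CC
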