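import Pool.Agent.Y518.CC.Defs

/-!
# Colourings of Borel graphs without Vitali sets: the steps of the construction of the measure
-/

set_option autoImplicit false

namespace Pool.Agent.Y518.CC

open MeasureTheory Filter Topology

variable {k : ℕ}

/-- The value that the label `a` should have at the point `u`, if the bits are given by `b` and
the colours by `t`. -/
def vl (b : ℝ × ℕ → Bool) (t : (ℕ → ℕ) → Fin (k + 1)) (u : Om k) : Lab k → Al k
  | .base j e => (b j ^^ e, 0)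
  | .col l F => (false, t (ev l F u))

/-- The letters `s` are possible, at the point `u`, as the values of the labels in `O`. -/
def GoodS (Γ : SimpleGraph (ℕ → ℕ)) (O : Finset (Lab k)) (s u : Om k) : Prop :=
  ∀ Z : Finset (ℕ → ℕ), ∃ (b : ℝ × ℕ → Bool) (t : (ℕ → ℕ) → Fin (k + 1)),
    (∀ y ∈ Z, ∀ z ∈ Z, Γ.Adj y z → t y ≠ t z) ∧ ∀ a ∈ O, s a = vl b t u a

/-- The values of the labels in `O` at the point `u` are possible. -/
def Good (Γ : SimpleGraph (ℕ → ℕ)) (O : Finset (Lab k)) (u : Om k) : Prop := GoodS Γ O u u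

/-- The labels that are given by labels in `S`. -/
def nx (S : Set (Lab k)) : Set (Lab k) := {a | match a with
  | .base _ _ => True
  | .col l _ => ∀ n, l n ∈ S}

/-- The events that depend on the letters at the labels in `S`. -/
abbrev cE (S : Set (Lab k)) : MeasurableSpace (Om k) := cylinderEvents (X := fun _ => Al k) S

/-- The events that depend on finitely many letters. -/
abbrev cF (k : ℕ) : Set (Set (Om k)) := measurableCylinders fun _ : Lab k => Al k

/-- KOL. Limits of finite-dimensional distributions. -/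
def S_KOL : Prop := ∀ (k : ℕ) (Δ : Type) (ν : Δ → Measure (Om k)),
  (∀ d, IsProbabilityMeasure (ν d)) → ∀ U : Ultrafilter Δ, ∃ μ : Measure (Om k),
    IsProbabilityMeasure μ ∧ ∀ C ∈ cF k, Tendsto (fun d => ν d C) U (𝓝 (μ C))

/-- REG. Limits of measures with a fixed restriction to a smaller `σ`-algebra. -/
def S_REG : Prop := ∀ (k : ℕ) (Δ : Type) (ν : Δ → Measure (Om k)),
  (∀ d, IsProbabilityMeasure (ν d)) → ∀ (U : Ultrafilter Δ) (μ : Measure (Om k)),
    IsProbabilityMeasure μ → (∀ C ∈ cF k, Tendsto (fun d => ν d C) U (𝓝 (μ C))) →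
      ∀ (S : Set (Lab k)) (μ₀ : Measure (Om k)), IsProbabilityMeasure μ₀ →
        (∀ B, MeasurableSet[cE S] B → ∀ᶠ d in (U : Filter Δ), ν d B = μ₀ B) →
          ∀ B, MeasurableSet[cE S] B → ∀ C ∈ cF k,
            Tendsto (fun d => ν d (B ∩ C)) U (𝓝 (μ (B ∩ C)))

/-- KEY. Measurability of the goodness. -/
def S_KEY : Prop := ∀ (k : ℕ) (Γ : SimpleGraph (ℕ → ℕ)),
  MeasurableSet {p : (ℕ → ℕ) × (ℕ → ℕ) | Γ.Adj p.1 p.2} → ∀ (S : Set (Lab k))
    (O : Finset (Lab k)), (∀ a ∈ O, a ∈ nx S) → ∀ μ : Measure (Om k), IsProbabilityMeasure μ →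
      ∀ s : Om k, ∃ B, MeasurableSet[cE S] B ∧ (∀ u, ¬ GoodS Γ O s u → u ∈ B) ∧
        ∀ ν : Measure (Om k), IsProbabilityMeasure ν →
          (∀ B, MeasurableSet[cE S] B → ν B = μ B) → ∀ᵐ u ∂ν, u ∈ B → ¬ GoodS Γ O s u

/-- STEP. Approximate extensions of the measure. -/
def S_STEP : Prop := ∀ (k : ℕ) (Γ : SimpleGraph (ℕ → ℕ)),
  MeasurableSet {p : (ℕ → ℕ) × (ℕ → ℕ) | Γ.Adj p.1 p.2} → ∀ (S : Set (Lab k)), S ⊆ nx S →
    (∀ (g : Gp), ∀ a ∈ S, mv g a ∈ S) → ∀ μ : Measure (Om k), IsProbabilityMeasure μ →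
      (∀ g : Gp, μ.map (mo g) = μ) → (∀ O : Finset (Lab k), (∀ a ∈ O, a ∈ S) →
        ∀ᵐ u ∂μ, Good Γ O u) → ∀ O : Finset (Lab k), (∀ a ∈ O, a ∈ nx S) →
          ∀ T : Finset (ℝ × ℕ), ∃ ν : Measure (Om k), IsProbabilityMeasure ν ∧
            (∀ B, MeasurableSet[cE S] B → ν B = μ B) ∧
            (∀ g : Gp, g.s ⊆ T → ν.map (mo g) = ν) ∧ ∀ᵐ u ∂ν, Good Γ O u

end Pool.Agent.Y518.CC
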