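import Mathlib

/-!
# Transitive models of ZF + DC and colourings of graphs in them: the definitions

Everything takes place inside the type `ZFSet.{0}` of all sets. A set (in the sense of Mathlib)
`M : Set ZFSet.{0}` is viewed as the structure `(M, ∈)`. These are all the definitions that the
results `MP_2948f4_lc.NoVitaliTransversal` and `MP_7d109d_lc.NoE0Transversal` need besides Mathlib
and the notion of a transversal.
-/

set_option autoImplicit false

namespace Pool.Agent.Y518.CC.Pub

open ZFSet (pair)

/-! ### Models of ZF + DC -/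

/-- `Definable M n R`: the relation `R` with `n` arguments is definable in the structure `(M, ∈)`
by a formula of first order logic with parameters from `M`. The five clauses are the clauses of
the definition of truth of a formula (membership and equality of variables or parameters,
negation, conjunction, existential quantification over the elements of `M`). -/
inductive Definable (M : Set ZFSet.{0}) : (n : ℕ) → ((Fin n → ZFSet.{0}) → Prop) → Prop
  | mem {n : ℕ} (s t : Fin n ⊕ M) :
      Definable M n fun v => Sum.elim v Subtype.val s ∈ Sum.elim v Subtype.val t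
  | eq {n : ℕ} (s t : Fin n ⊕ M) :
      Definable M n fun v => Sum.elim v Subtype.val s = Sum.elim v Subtype.val t
  | neg {n : ℕ} {R : (Fin n → ZFSet.{0}) → Prop} : Definable M n R → Definable M n fun v => ¬ R v
  | and {n : ℕ} {R S : (Fin n → ZFSet.{0}) → Prop} :
      Definable M n R → Definable M n S → Definable M n fun v => R v ∧ S v
  | ex {n : ℕ} {R : (Fin (n + 1) → ZFSet.{0}) → Prop} :
      Definable M (n + 1) R → Definable M n fun v => ∃ a ∈ M, R (Fin.cons a v)

/-- `M` is a transitive model of ZF: a transitive class of sets that satisfies the axioms of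
pairing, union, infinity and power set, and the schemes of separation and replacement for all
formulas with parameters from `M` (extensionality and foundation hold in every transitive
class; pairs, unions, the set of natural numbers and subsets mean the same in `M` and outside). -/
structure IsZF (M : Set ZFSet.{0}) : Prop where
  trans : ∀ x ∈ M, ∀ y ∈ x, y ∈ M
  pairing : ∀ x ∈ M, ∀ y ∈ M, ({x, y} : ZFSet.{0}) ∈ M
  union : ∀ x ∈ M, ZFSet.sUnion x ∈ M
  infinity : ZFSet.omega ∈ M
  power : ∀ x ∈ M, ∃ y ∈ M, ∀ z, z ∈ y ↔ z ∈ M ∧ z ⊆ x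
  separation : ∀ R, Definable M 1 R → ∀ x ∈ M, ∃ y ∈ M, ∀ z, z ∈ y ↔ z ∈ x ∧ R ![z]
  replacement : ∀ R, Definable M 2 R → ∀ x ∈ M, (∀ z ∈ x, ∃! w, w ∈ M ∧ R ![z, w]) →
    ∃ y ∈ M, ∀ w, w ∈ y ↔ w ∈ M ∧ ∃ z ∈ x, R ![z, w]

/-- The axiom of dependent choice in the transitive class `M`: for every nonempty set `X` and
every relation `R` on `X` such that every `x ∈ X` has some `y ∈ X` with `x R y`, there is a
sequence `s : ω → X` with `s n R s (n + 1)` for all `n`. -/
def DC (M : Set ZFSet.{0}) : Prop :=
  ∀ X ∈ M, ∀ R ∈ M, (∃ x, x ∈ X) → (∀ x ∈ X, ∃ y ∈ X, pair x y ∈ R) →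
    ∃ s ∈ M, ZFSet.IsFunc ZFSet.omega X s ∧
      ∀ n x y, pair n x ∈ s → pair (insert n n) y ∈ s → pair x y ∈ R

/-! ### Colourings -/

/-- The natural number `n` as a set: `0 = ∅` and `n + 1 = n ∪ {n}`. -/
noncomputable def nat (n : ℕ) : ZFSet.{0} := (fun x => insert x x)^[n] ∅

/-- The function `y` from the natural numbers to the natural numbers as a set of pairs. -/
noncomputable def code (y : ℕ → ℕ) : ZFSet.{0} := ZFSet.range fun n : ℕ => pair (nat n) (nat (y n))

/-- In the transitive class `M`, the set `c` is a `k`-colouring of the graph `Γ`. The points `x` of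
the graph are coded by the functions `e x : ℕ → ℕ`. The set `c` is a function from the Baire space
of `M` (that is, from the set of the functions from `ω` to `ω` in `M`) to `k = {0, ..., k - 1}`, and
for adjacent vertices `x`, `y` of the graph `Γ`, the functions `e x` and `e y` (if they are in `M`)
do not have the same value. -/
def IsColouring (M : Set ZFSet.{0}) {X : Type} (Γ : SimpleGraph X) (e : X → ℕ → ℕ) (k : ℕ)
    (c : ZFSet.{0}) : Prop :=
  (∃ N ∈ M, (∀ y, y ∈ N ↔ y ∈ M ∧ ZFSet.IsFunc ZFSet.omega ZFSet.omega y) ∧
    ZFSet.IsFunc N (nat k) c) ∧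
  ∀ x y : X, Γ.Adj x y → ∀ i, ¬ (pair (code (e x)) i ∈ c ∧ pair (code (e y)) i ∈ c)

end Pool.Agent.Y518.CC.Pub
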