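import Pool.Agent.Y518.CC.Pub
import Pool.Agent.Y518.CC.Fin

/-!
# The results in terms of the definitions of `Pub`
-/

set_option autoImplicit false

namespace Pool.Agent.Y518.CC.Pub

open ZFSet (pair)

/-- The translation of terms. -/
def tr {M : Set ZFSet.{0}} {n : ℕ} : Fin n ⊕ M → Fin n ⊕ ZFSet.{0}
  | .inl i => .inl i
  | .inr a => .inr a.1

theorem tr_elim {M : Set ZFSet.{0}} {n : ℕ} (v : Fin n → ZFSet.{0}) (s : Fin n ⊕ M) :
    Sum.elim v id (tr s) = Sum.elim v Subtype.val s := by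
  cases s <;> rfl

theorem tr_over {M : Set ZFSet.{0}} {n : ℕ} (s : Fin n ⊕ M) : W868.TOver M (tr s) := by
  intro a ha
  cases s with
  | inl i => exact absurd ha (by simp [tr])
  | inr b =>
    have h : b.1 = a := Sum.inr.inj ha
    exact h ▸ b.2

theorem Definable.fml {M : Set ZFSet.{0}} {n : ℕ} {R : (Fin n → ZFSet.{0}) → Prop}
    (h : Definable M n R) : ∃ φ : W868.Fml ZFSet.{0} n, φ.Over M ∧ ∀ v, R v ↔ W868.Sat M id φ v := by
  induction h with
  | mem s t =>
    refine ⟨.mem (tr s) (tr t), ⟨tr_over s, tr_over t⟩, fun v => ?_⟩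
    rw [W868.Sat, tr_elim, tr_elim]
  | eq s t =>
    refine ⟨.eq (tr s) (tr t), ⟨tr_over s, tr_over t⟩, fun v => ?_⟩
    rw [W868.Sat, tr_elim, tr_elim]
  | neg _ ih =>
    obtain ⟨φ, h1, h2⟩ := ih
    exact ⟨.neg φ, h1, fun v => not_congr (h2 v)⟩
  | and _ _ ih ih' =>
    obtain ⟨φ, h1, h2⟩ := ih
    obtain ⟨ψ, h3, h4⟩ := ih'
    exact ⟨.and φ ψ, ⟨h1, h3⟩, fun v => and_congr (h2 v) (h4 v)⟩
  | ex _ ih =>
    obtain ⟨φ, h1, h2⟩ := ih
    exact ⟨.ex φ, h1, fun v => exists_congr fun a => and_congr_right fun _ => h2 _⟩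

theorem IsZF.of {M : Set ZFSet.{0}} (h : W868.IsZF M) : IsZF M where
  trans := h.trans
  pairing := h.pairing
  union := h.union
  infinity := h.infinity
  power := h.power
  separation R hR x hx := by
    obtain ⟨φ, h1, h2⟩ := hR.fml
    simp only [h2]
    exact h.separation φ h1 x hx
  replacement R hR x hx := by
    obtain ⟨φ, h1, h2⟩ := hR.fml
    simp only [h2]
    exact h.replacement φ h1 x hx

theorem nat_eq (n : ℕ) : nat n = W868.nat n := by
  induction n with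
  | zero => rfl
  | succ n ih =>
    unfold nat at ih ⊢
    rw [Function.iterate_succ_apply', ih, W868.nat]

theorem code_eq (y : ℕ → ℕ) : code y = W910.BG.code y := by
  unfold code W910.BG.code
  simp only [nat_eq]

theorem isColouring_iff {M : Set ZFSet.{0}} {X : Type} {Γ : SimpleGraph X} {e : X → ℕ → ℕ} {k : ℕ}
    {c : ZFSet.{0}} : IsColouring M Γ e k c ↔ IsCol M Γ e k c := by
  unfold IsColouring IsCol
  simp only [code_eq, nat_eq]

/-- **The model.** -/
theorem model {X : Type} [TopologicalSpace X] [PolishSpace X] [MeasurableSpace X] [BorelSpace X]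
    (Γ : SimpleGraph X) (borel : MeasurableSet {p : X × X | Γ.Adj p.1 p.2})
    {k : ℕ} (pos : 0 < k) (colorable : Γ.Colorable k)
    (e : X → ℕ → ℕ) (he : Measurable e) (inj : Function.Injective e) (z : ℕ → ℕ) :
    ∃ M : Set ZFSet.{0}, M.Countable ∧ IsZF M ∧ DC M ∧ code z ∈ M ∧
      (∃ c ∈ M, IsColouring M Γ e k c) ∧ (¬ ∃ T ∈ M, IsVitali M T) ∧ ¬ ∃ T ∈ M, IsE0Tr M T := by
  obtain ⟨M, h1, h2, h3, h4, ⟨c, h5, h6⟩, h7, h8⟩ := CC.model Γ borel pos colorable e he inj z
  exact ⟨M, h1, .of h2, h3, by rwa [code_eq], ⟨c, h5, isColouring_iff.2 h6⟩, h7, h8⟩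

/-- A graph without odd cycles is 2-colourable. -/
theorem two {X : Type} {Γ : SimpleGraph X}
    (h : ∀ (x : X) (w : Γ.Walk x x), w.IsCycle → Even w.length) : Γ.Colorable 2 :=
  colorable_two h

end Pool.Agent.Y518.CC.Pub
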