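import Pool.Agent.Y518.CC.MBasic

/-!
# The extension step
-/

set_option autoImplicit false

namespace Pool.Agent.Y518.CC.Step

open MeasureTheory Filter Topology

variable {k : ℕ} {Γ : SimpleGraph (ℕ → ℕ)}

/-- Selection. -/
theorem sel {Ω τ : Type} [MeasurableSpace Ω] [Finite τ] [Nonempty τ] [MeasurableSpace τ]
    (A : τ → Set Ω) (hA : ∀ s, MeasurableSet (A s)) :
    ∃ f : Ω → τ, Measurable f ∧ ∀ u, (∃ s, u ∈ A s) → u ∈ A (f u) := by
  classical
  obtain ⟨g, hg⟩ := exists_surjective_nat τ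
  have hp : ∀ u, ∃ n, u ∈ A (g n) ∨ ∀ s, u ∉ A s := by
    intro u
    by_cases h : ∃ s, u ∈ A s
    · obtain ⟨s, hs⟩ := h
      obtain ⟨n, rfl⟩ := hg s
      exact ⟨n, Or.inl hs⟩
    · push Not at h
      exact ⟨0, Or.inr h⟩
  refine ⟨fun u => g (Nat.find (hp u)), ?_, fun u hu => ?_⟩
  · have h1 : Measurable fun u => Nat.find (hp u) := by
      refine measurable_find hp fun n => ?_
      have h2 : {u | u ∈ A (g n) ∨ ∀ s, u ∉ A s} = A (g n) ∪ ⋂ s, (A s)ᶜ := by
        ext u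
        simp
      rw [h2]
      exact (hA _).union (MeasurableSet.iInter fun s => (hA s).compl)
    exact (measurable_from_nat (f := g)).comp h1
  · obtain ⟨s, hs⟩ := hu
    rcases Nat.find_spec (hp u) with h | h
    · exact h
    · exact absurd hs (h s)

open Classical in
/-- Letters at the labels in `O`. -/
noncomputable def xt (O : Finset (Lab k)) (σ : O → Al k) : Om k := fun a =>
  if h : a ∈ O then σ ⟨a, h⟩ else default

theorem xt_mem {O : Finset (Lab k)} (σ : O → Al k) {a : Lab k} (h : a ∈ O) :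
    xt O σ a = σ ⟨a, h⟩ := by
  classical
  exact dif_pos h

/-- A measurable set that contains the bad points. -/
theorem exists_bad (hK : S_KEY)
    (hΓ : MeasurableSet {p : (ℕ → ℕ) × (ℕ → ℕ) | Γ.Adj p.1 p.2}) {S : Set (Lab k)}
    {O : Finset (Lab k)} (hO : ∀ a ∈ O, a ∈ nx S) (μ : Measure (Om k)) [IsProbabilityMeasure μ] :
    ∃ B : (O → Al k) → Set (Om k), (∀ σ, MeasurableSet[cE S] (B σ)) ∧
      (∀ σ u, ¬ GoodS Γ O (xt O σ) u → u ∈ B σ) ∧
      ∀ ν : Measure (Om k), IsProbabilityMeasure ν →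
        (∀ B, MeasurableSet[cE S] B → ν B = μ B) →
          ∀ σ, ∀ᵐ u ∂ν, u ∈ B σ → ¬ GoodS Γ O (xt O σ) u := by
  choose B h1 h2 h3 using fun σ : O → Al k => hK k Γ hΓ S O hO μ inferInstance (xt O σ)
  exact ⟨B, h1, h2, fun ν hν hm σ => h3 σ ν hν hm⟩

theorem step0 (hK : S_KEY)
    (hΓ : MeasurableSet {p : (ℕ → ℕ) × (ℕ → ℕ) | Γ.Adj p.1 p.2}) {S : Set (Lab k)}
    {O : Finset (Lab k)} (hO : ∀ a ∈ O, a ∈ nx S) (μ : Measure (Om k)) [IsProbabilityMeasure μ]
    (hμ : ∀ O : Finset (Lab k), (∀ a ∈ O, a ∈ S) → ∀ᵐ u ∂μ, Good Γ O u) :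
    ∃ ν : Measure (Om k), IsProbabilityMeasure ν ∧ (∀ B, MeasurableSet[cE S] B → ν B = μ B) ∧
      ∃ M : Set (Om k), MeasurableSet M ∧ (∀ u, ¬ Good Γ O u → u ∈ M) ∧ ν M = 0 := by
  classical
  obtain ⟨B, hB1, hB2, hB3⟩ := exists_bad hK hΓ hO μ
  let A : (O → Al k) → Set (Om k) := fun σ => {u | (∀ a ∈ O, a ∈ S → u a = xt O σ a) ∧ u ∉ B σ}
  have hA : ∀ σ, MeasurableSet[cE S] (A σ) := by
    intro σ
    have h1 : A σ = (⋂ a ∈ (O.filter (· ∈ S)), {u : Om k | u a = xt O σ a}) ∩ (B σ)ᶜ := by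
      ext u
      simp [A]
    rw [h1]
    refine @MeasurableSet.inter _ (cE S) _ _ (Finset.measurableSet_biInter _ fun a ha => ?_)
      (@MeasurableSet.compl _ _ (cE S) (hB1 σ))
    have h2 : @Measurable _ _ (cE S) _ fun u : Om k => u a :=
      measurable_cylinderEvent_apply (Finset.mem_filter.1 ha).2
    exact h2 (MeasurableSet.of_discrete (s := {xt O σ a}))
  obtain ⟨f, hf, hfA⟩ := @sel (Om k) (O → Al k) (cE S) _ _ _ A hA
  let c : Om k → Om k := fun u a => if a ∈ O ∧ a ∉ S then xt O (f u) a else u a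
  have hcm : Measurable c := by
    refine measurable_pi_lambda _ fun a => ?_
    by_cases h : a ∈ O ∧ a ∉ S
    · have h1 : (fun u => c u a) = fun u => xt O (f u) a := funext fun u => if_pos h
      rw [h1]
      have h2 : Measurable fun σ : O → Al k => xt O σ a := measurable_of_countable _
      exact h2.comp (hf.mono (cE_le S) le_rfl)
    · have h1 : (fun u => c u a) = fun u => u a := funext fun u => if_neg h
      rw [h1]
      exact measurable_pi_apply a
  have hcS : ∀ u, ∀ a ∈ S, c u a = u a := fun u a ha => if_neg fun h => h.2 ha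
  have hcB : ∀ B : Set (Om k), MeasurableSet[cE S] B → c ⁻¹' B = B := by
    intro B hB
    ext u
    exact cE_dep hB (hcS u)
  -- almost all points have good extensions
  have hae : ∀ᵐ u ∂μ, ∃ σ, u ∈ A σ := by
    have h1 : ∀ᵐ u ∂μ, ∀ σ, u ∈ B σ → ¬ GoodS Γ O (xt O σ) u :=
      ae_all_iff.2 fun σ => hB3 μ inferInstance (fun _ _ => rfl) σ
    filter_upwards [hμ (O.filter (· ∈ S)) (fun a ha => (Finset.mem_filter.1 ha).2), h1] with u hu hu1
    by_contra hcon
    push Not at hcon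
    have h2 : ∀ σ : O → Al k, ∃ Z : Finset (ℕ → ℕ), (∀ a ∈ O, a ∈ S → u a = xt O σ a) →
        ∀ (b : ℝ × ℕ → Bool) (t : (ℕ → ℕ) → Fin (k + 1)),
          (∀ y ∈ Z, ∀ z ∈ Z, Γ.Adj y z → t y ≠ t z) → ¬ ∀ a ∈ O, xt O σ a = vl b t u a := by
      intro σ
      by_cases h3 : ∀ a ∈ O, a ∈ S → u a = xt O σ a
      · have h4 : u ∈ B σ := by
          by_contra h5
          exact hcon σ ⟨h3, h5⟩
        have h6 := hu1 σ h4
        unfold GoodS at h6
        push Not at h6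
        obtain ⟨Z, hZ⟩ := h6
        refine ⟨Z, fun _ b t hbt hh => ?_⟩
        obtain ⟨a, ha, h7⟩ := hZ b t hbt
        exact h7 (hh a ha)
      · exact ⟨∅, fun h => absurd h h3⟩
    choose Z hZ using h2
    obtain ⟨b, t, h8, h9⟩ := hu (Finset.univ.biUnion Z)
    have hx : ∀ a ∈ O, xt O (fun a => vl b t u a.1) a = vl b t u a := fun a ha => xt_mem _ ha
    refine hZ (fun a => vl b t u a.1) (fun a ha haS => ?_) b t (fun y hy z hz => ?_) hx
    · rw [hx a ha]
      exact h9 a (Finset.mem_filter.2 ⟨ha, haS⟩)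
    · exact h8 y (Finset.mem_biUnion.2 ⟨_, Finset.mem_univ _, hy⟩) z
        (Finset.mem_biUnion.2 ⟨_, Finset.mem_univ _, hz⟩)
  obtain ⟨M, hM⟩ : ∃ M : Set (Om k), M = ⋃ σ : O → Al k, ({u | ∀ a ∈ O, u a = xt O σ a} ∩ B σ) :=
    ⟨_, rfl⟩
  have hMm : MeasurableSet M := by
    rw [hM]
    refine MeasurableSet.iUnion fun σ => MeasurableSet.inter ?_ (cE_le S _ (hB1 σ))
    have h1 : {u : Om k | ∀ a ∈ O, u a = xt O σ a} =
        ⋂ a ∈ O, (fun u : Om k => u a) ⁻¹' {xt O σ a} := by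
      ext u
      simp
    rw [h1]
    exact Finset.measurableSet_biInter _ fun a _ =>
      measurable_pi_apply a (MeasurableSet.of_discrete (s := {xt O σ a}))
  refine ⟨μ.map c, Measure.isProbabilityMeasure_map hcm.aemeasurable, fun B hB => ?_,
    M, hMm, ?_, ?_⟩
  · rw [Measure.map_apply hcm (cE_le S _ hB), hcB B hB]
  · intro u hu
    have hx : ∀ a ∈ O, u a = xt O (fun a => u a.1) a := fun a ha => (xt_mem (fun a => u a.1) ha).symm
    rw [hM]
    refine Set.mem_iUnion.2 ⟨fun a => u a.1, hx, hB2 _ _ fun h => hu ?_⟩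
    exact goodS_congr hO (fun a ha => (hx a ha).symm) (fun _ _ => rfl) h
  · rw [Measure.map_apply hcm hMm]
    have h1 : ∀ᵐ u ∂μ, u ∉ c ⁻¹' M := by
      filter_upwards [hae] with u hu hcu
      have h2 := hfA u hu
      rw [Set.mem_preimage, hM] at hcu
      obtain ⟨σ, h3, h4⟩ := Set.mem_iUnion.1 hcu
      have h5 : ∀ a ∈ O, c u a = xt O (f u) a := by
        intro a ha
        by_cases haS : a ∈ S
        · rw [hcS u a haS]
          exact h2.1 a ha haS
        · exact if_pos ⟨ha, haS⟩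
      have h6 : σ = f u := by
        funext a
        rw [← xt_mem σ a.2, ← xt_mem (f u) a.2, ← h5 a.1 a.2]
        exact (h3 a.1 a.2).symm
      rw [h6] at h4
      exact h2.2 ((cE_dep (hB1 _) (hcS u)).1 h4)
    have h2 := measure_eq_zero_iff_ae_notMem.2 h1
    exact h2

open Classical in
theorem main (hK : S_KEY) : S_STEP := by
  intro k Γ hΓ S hS hinv μ hμp hμ hgood O hO T
  have hg : ∀ (t : Finset (ℝ × ℕ)), (⟨t⟩ : Gp).s = t := fun t => rfl
  set O' : Finset (Lab k) := T.powerset.biUnion fun t => O.image (mv ⟨t⟩) with hO'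
  have hO'n : ∀ a ∈ O', a ∈ nx S := by
    intro a ha
    obtain ⟨t, -, ht⟩ := Finset.mem_biUnion.1 ha
    obtain ⟨a', ha', rfl⟩ := Finset.mem_image.1 ht
    exact mv_nx hinv _ (hO a' ha')
  obtain ⟨ν, hν, hνμ, M, hM, hMb, hM0⟩ := step0 hK hΓ hO'n μ hgood
  have hc0 : (T.powerset.card : ENNReal) ≠ 0 := by
    rw [Ne, Nat.cast_eq_zero, Finset.card_eq_zero]
    exact (Finset.powerset_nonempty T).ne_empty
  have hc1 : (T.powerset.card : ENNReal) ≠ ⊤ := ENNReal.natCast_ne_top _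
  obtain ⟨ξ, hξ⟩ : ∃ ξ : Measure (Om k), ξ = (T.powerset.card : ENNReal)⁻¹ •
    ∑ t ∈ T.powerset, ν.map (mo ⟨t⟩) := ⟨_, rfl⟩
  have hξa : ∀ B, ξ B = (T.powerset.card : ENNReal)⁻¹ * ∑ t ∈ T.powerset, ν.map (mo ⟨t⟩) B := by
    intro B
    rw [hξ, Measure.smul_apply, Measure.finsetSum_apply, smul_eq_mul]
  have hξS : ∀ B, MeasurableSet[cE S] B → ξ B = μ B := by
    intro B hB
    have h1 : ∀ t ∈ T.powerset, ν.map (mo ⟨t⟩) B = μ B := by
      intro t _
      have h2 : MeasurableSet[cE S] (mo (⟨t⟩ : Gp) ⁻¹' B) := cE_mo hinv ⟨t⟩ hB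
      rw [Measure.map_apply (measurable_mo _) (cE_le S _ hB), hνμ _ h2,
        ← Measure.map_apply (measurable_mo _) (cE_le S _ hB), hμ]
    rw [hξa, Finset.sum_congr rfl h1, Finset.sum_const, nsmul_eq_mul, ← mul_assoc,
      ENNReal.inv_mul_cancel hc0 hc1, one_mul]
  refine ⟨ξ, ⟨?_⟩, hξS, fun g hgT => ?_, ?_⟩
  · rw [hξS _ MeasurableSet.univ, measure_univ]
  · refine Measure.ext fun B hB => ?_
    have h1 : ∀ t : Finset (ℝ × ℕ), ν.map (mo ⟨t⟩) (mo g ⁻¹' B) = ν.map (mo (⟨t⟩ * g)) B := by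
      intro t
      rw [Measure.map_apply (measurable_mo _) (measurable_mo g hB),
        Measure.map_apply (measurable_mo _) hB]
      congr 1
      ext u
      rw [Set.mem_preimage, Set.mem_preimage, Set.mem_preimage, mul_comm, mo_mul]
    have hgs : ∀ t ∈ T.powerset, ((⟨t⟩ : Gp) * g).s ∈ T.powerset := by
      intro t ht
      rw [Finset.mem_powerset] at ht ⊢
      intro j hj
      have h2 : ((⟨t⟩ : Gp) * g).Has j := hj
      rw [Gp.has_mul] at h2
      by_cases h3 : (⟨t⟩ : Gp).Has j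
      · exact ht h3
      · exact hgT (by
          have h4 : g.Has j := by tauto
          exact h4)
    have hgg : ∀ t : Finset (ℝ × ℕ), ((⟨((⟨t⟩ : Gp) * g).s⟩ : Gp) * g).s = t := by
      intro t
      have h2 : ((⟨((⟨t⟩ : Gp) * g).s⟩ : Gp) * g) = ⟨t⟩ := by
        change (⟨t⟩ : Gp) * g * g = _
        rw [mul_assoc, Gp.mul_self, mul_one]
      rw [h2]
    rw [Measure.map_apply (measurable_mo g) hB, hξa, hξa]
    congr 1
    refine Finset.sum_bij' (fun t _ => ((⟨t⟩ : Gp) * g).s) (fun t _ => ((⟨t⟩ : Gp) * g).s)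
      hgs hgs (fun t _ => hgg t) (fun t _ => hgg t) fun t _ => ?_
    exact h1 t
  · have h1 : ∀ t ∈ T.powerset, ν.map (mo ⟨t⟩) {u | ¬ Good Γ O u} = 0 := by
      intro t ht
      have h2 : {u | ¬ Good Γ O u} ⊆ mo (⟨t⟩ : Gp) ⁻¹' M := by
        intro u hu
        refine hMb _ fun h => hu ?_
        have h3 := good_mo (O := O) (O' := O') (g := ⟨t⟩) (fun a ha =>
          Finset.mem_biUnion.2 ⟨t, ht, Finset.mem_image_of_mem _ ha⟩) h
        rwa [mo_mo] at h3
      refine measure_mono_null h2 ?_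
      rw [Measure.map_apply (measurable_mo _) (measurable_mo _ hM)]
      have h4 : mo (⟨t⟩ : Gp) ⁻¹' (mo (⟨t⟩ : Gp) ⁻¹' M) = M := by
        ext u
        rw [Set.mem_preimage, Set.mem_preimage, mo_mo]
      rw [h4, hM0]
    have h5 : ξ {u | ¬ Good Γ O u} = 0 := by
      rw [hξa, Finset.sum_eq_zero h1, mul_zero]
    exact h5

end Pool.Agent.Y518.CC.Step
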