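import Pool.Agent.Y518.CC.FinDefs

/-!
# The real number given by a sequence of bits
-/

set_option autoImplicit false

namespace Pool.Agent.Y518.CC

open Pool.Agent.W868 Pool.Agent.W910 Pool.Agent.W910.SY
open Pool.Agent.W910.BG (code code_injective)
open MeasureTheory

theorem cut_injective : Function.Injective cut := by
  have key : ∀ r s : ℝ, r < s → cut r ≠ cut s := by
    intro r s h he
    obtain ⟨q, h1, h2⟩ := exists_rat_btwn h
    obtain ⟨n, hn⟩ : ∃ n, Denumerable.ofNat ℚ n = q := ⟨Denumerable.eqv ℚ q, (Denumerable.eqv ℚ).symm_apply_apply q⟩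
    have h3 := congrFun he n
    unfold cut at h3
    rw [hn, if_neg (not_lt.2 h1.le), if_pos h2] at h3
    exact zero_ne_one h3
  intro r s h
  rcases lt_trichotomy r s with h1 | h1 | h1
  · exact absurd h (key r s h1)
  · exact h1
  · exact absurd h.symm (key s r h1)

theorem measurable_cut : Measurable cut := by
  refine measurable_pi_lambda _ fun n => ?_
  exact Measurable.ite (measurableSet_lt measurable_const measurable_id) measurable_const
    measurable_const

theorem bin_injective : Function.Injective bin := by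
  intro a b h
  funext n
  have h1 := congrFun h n
  unfold bin at h1
  cases ha : a n <;> cases hb : b n <;> simp_all

theorem measurable_bin : Measurable bin := by
  refine measurable_pi_lambda _ fun n => ?_
  have h1 : Measurable fun x : Bool => if x then 1 else 0 := measurable_of_countable _
  exact h1.comp (measurable_pi_apply n)

/-- The value of a digit. -/
noncomputable def dg (b : ℕ → Bool) (n : ℕ) : ℝ := if b n then (1 / 2) ^ n else 0

/-- The real number with the given digits. -/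
noncomputable def rr (b : ℕ → Bool) : ℝ := ∑' n, dg b n

theorem summable_dg (b : ℕ → Bool) : Summable (dg b) := by
  refine Summable.of_nonneg_of_le (fun n => ?_) (fun n => ?_) summable_geometric_two
  · unfold dg
    split_ifs <;> positivity
  · unfold dg
    split_ifs
    · exact le_rfl
    · positivity

theorem measurable_rr : Measurable rr := by
  refine Measurable.tsum fun n => ?_
  have h1 : Measurable fun x : Bool => (if x then (1 / 2 : ℝ) ^ n else 0) :=
    measurable_of_countable _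
  exact h1.comp (measurable_pi_apply n)

/-- The rational change of the real number. -/
def chg (s : Finset ℕ) (b : ℕ → Bool) : ℚ := ∑ n ∈ s, if b n then -(1 / 2) ^ n else (1 / 2) ^ n

theorem rr_flp (s : Finset ℕ) (b : ℕ → Bool) : rr (flp s b) = rr b + (chg s b : ℚ) := by
  have h1 : rr (flp s b) - rr b = ∑' n, (dg (flp s b) n - dg b n) :=
    ((summable_dg _).tsum_sub (summable_dg _)).symm
  have h2 : ∑' n, (dg (flp s b) n - dg b n) = ∑ n ∈ s, (dg (flp s b) n - dg b n) := by
    refine tsum_eq_sum fun n hn => ?_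
    unfold dg flp
    simp [hn]
  have h3 : ∑ n ∈ s, (dg (flp s b) n - dg b n) = ((chg s b : ℚ) : ℝ) := by
    unfold chg
    rw [Rat.cast_sum]
    refine Finset.sum_congr rfl fun n hn => ?_
    unfold dg flp
    cases hb : b n <;> simp [hn]
  rw [← h3, ← h2, ← h1]
  ring

theorem chg_ne {s : Finset ℕ} (hs : s.Nonempty) (b : ℕ → Bool) : chg s b ≠ 0 := by
  intro h
  have hm := s.max'_mem hs
  set m := s.max' hs with hmd
  have h1 : (2 : ℚ) ^ m * chg s b = ((∑ n ∈ s, (if b n then -1 else 1) * 2 ^ (m - n) : ℤ) : ℚ) := by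
    unfold chg
    rw [Finset.mul_sum]
    push_cast
    refine Finset.sum_congr rfl fun n hn => ?_
    have h2 : n ≤ m := s.le_max' n hn
    have h3 : (2 : ℚ) ^ m * (1 / 2) ^ n = 2 ^ (m - n) := by
      obtain ⟨d, hd⟩ := Nat.exists_eq_add_of_le h2
      rw [hd, pow_add, Nat.add_sub_cancel_left]
      have h4 : (2 : ℚ) ^ n * (1 / 2) ^ n = 1 := by rw [← mul_pow]; norm_num
      calc (2 : ℚ) ^ n * 2 ^ d * (1 / 2) ^ n = (2 ^ n * (1 / 2) ^ n) * 2 ^ d := by ring
        _ = 2 ^ d := by rw [h4, one_mul]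
    cases b n with
    | true => simp only [if_true, mul_neg, h3]; ring
    | false => simp only [Bool.false_eq_true, if_false, h3]; ring
  rw [h, mul_zero] at h1
  have h2 : (∑ n ∈ s, (if b n then -1 else 1) * 2 ^ (m - n) : ℤ) = 0 := by exact_mod_cast h1.symm
  rw [← Finset.add_sum_erase s _ hm, Nat.sub_self, pow_zero, mul_one] at h2
  have h3 : (2 : ℤ) ∣ ∑ n ∈ s.erase m, (if b n then -1 else 1) * 2 ^ (m - n) := by
    refine Finset.dvd_sum fun n hn => ?_
    obtain ⟨h4, h5⟩ := Finset.mem_erase.1 hn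
    have h6 : n < m := lt_of_le_of_ne (s.le_max' n h5) h4
    exact Dvd.dvd.mul_left (dvd_pow_self 2 (by omega)) _
  obtain ⟨d, hd⟩ := h3
  rw [hd] at h2
  cases hb : b m <;> simp [hb] at h2 <;> omega

theorem flp_ne {s : Finset ℕ} (hs : s.Nonempty) (b : ℕ → Bool) : flp s b ≠ b := by
  obtain ⟨n, hn⟩ := hs
  intro h
  have h1 := congrFun h n
  unfold flp at h1
  cases hb : b n <;> simp_all

/-- There is no transversal of the Vitali equivalence relation. -/
theorem no_vitali {M : Set ZFSet.{0}}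
    (hM : ∀ T ∈ M, ∃ b : ℕ → Bool, (∀ q : ℚ, code (cut (rr b + q)) ∈ M) ∧
      ∀ q : ℚ, code (cut (rr b + q)) ∈ T → ∃ s : Finset ℕ, s.Nonempty ∧
        code (cut (rr (flp s b) + q)) ∈ T) : ¬ ∃ T ∈ M, IsVitali M T := by
  rintro ⟨T, hT, hT1, hT2⟩
  obtain ⟨b, h1, h2⟩ := hM T hT
  obtain ⟨s, ⟨h3, q, h4⟩, h5⟩ := hT2 (rr b) (by simpa using h1 0)
  have h6 : s = rr b + q := by rw [← h4]; ring
  rw [h6] at h3
  obtain ⟨t, ht, h7⟩ := h2 q h3
  have h8 := h5 (rr (flp t b) + q) ⟨h7, chg t b + q, by rw [rr_flp]; push_cast; ring⟩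
  rw [h6, rr_flp] at h8
  have h9 : ((chg t b : ℚ) : ℝ) = 0 := by linarith
  exact chg_ne ht b (by exact_mod_cast h9)

/-- There is no transversal of the relation `E₀`. -/
theorem no_e0 {M : Set ZFSet.{0}}
    (hM : ∀ T ∈ M, ∃ b : ℕ → Bool, (∀ q : Finset ℕ, code (bin (flp q b)) ∈ M) ∧
      ∀ q : Finset ℕ, code (bin (flp q b)) ∈ T → ∃ s : Finset ℕ, s.Nonempty ∧
        code (bin (flp q (flp s b))) ∈ T) : ¬ ∃ T ∈ M, IsE0Tr M T := by
  rintro ⟨T, hT, hT1, hT2⟩
  obtain ⟨b, h1, h2⟩ := hM T hT
  have h0 : flp ∅ b = b := by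
    funext n
    simp [flp]
  obtain ⟨a, ⟨h3, m, h4⟩, h5⟩ := hT2 b (by simpa [h0] using h1 ∅)
  have h6 : a = flp ((Finset.range m).filter fun n => a n ≠ b n) b := by
    funext n
    unfold flp
    simp only [Finset.mem_filter, Finset.mem_range]
    by_cases h7 : n < m
    · cases a n <;> cases b n <;> simp [h7]
    · rw [h4 n (not_lt.1 h7)]
      simp [h7]
  rw [h6] at h3
  obtain ⟨t, ht, h7⟩ := h2 _ h3
  set q := (Finset.range m).filter fun n => a n ≠ b n with hq
  have hfin : ∀ (r : Finset ℕ) (c : ℕ → Bool), ∃ m, ∀ n ≥ m, flp r c n = c n := by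
    intro r c
    refine ⟨r.sup id + 1, fun n hn => ?_⟩
    have h8 : n ∉ r := fun h => by
      have h9 : n ≤ r.sup id := Finset.le_sup (f := id) h
      omega
    simp [flp, h8]
  have h8 := h5 (flp q (flp t b)) ⟨h7, by
    obtain ⟨m1, h9⟩ := hfin q (flp t b)
    obtain ⟨m2, h10⟩ := hfin t b
    exact ⟨max m1 m2, fun n hn => (h9 n (le_trans (le_max_left _ _) hn)).trans
      (h10 n (le_trans (le_max_right _ _) hn))⟩⟩
  rw [h6] at h8
  refine flp_ne ht b ?_
  funext n
  have h9 := congrFun h8 n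
  unfold flp at h9 ⊢
  revert h9
  cases b n <;> cases decide (n ∈ q) <;> cases decide (n ∈ t) <;> simp

end Pool.Agent.Y518.CC
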